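import Pool.Agent.T9h42.SP.Zero
import Pool.Agent.T9h42.DD.MinusD

/-!
# The splitting in degree minus one
-/

set_option linter.unusedSectionVars false

namespace Pool.Agent.T9h42.KS

open MonoidAlgebra H970SH H842 Pool.Agent.Y69 Pool.Agent.Y69.StepC Pool.Agent.Y778.NK
  Pool.Agent.T9h42 Pool.Agent.T9h42.Q Pool.Agent.T9h42.KD
open Pool.Agent.Y69.FJK (GK1)

noncomputable section

section hs

variable {k G : Type} [CommRing k] [Group G]

/-- the projection to the integers -/
def prz (g : G × Multiplicative ℤ) : ℤ := Multiplicative.toAdd g.2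

theorem prz_add (c : G × Multiplicative ℤ) : AddOnC c (prz : G × Multiplicative ℤ → ℤ) :=
  fun _ _ _ _ => rfl

theorem snd_one {g : G × Multiplicative ℤ} (hg : 0 < orderOf g) : g.2 = 1 := by
  have h1 : g ^ orderOf g = 1 := pow_orderOf_eq_one g
  have h2 : g.2 ^ orderOf g = 1 := congrArg Prod.snd h1
  have h3 : orderOf g • Multiplicative.toAdd g.2 = 0 := congrArg Multiplicative.toAdd h2
  rw [nsmul_eq_mul] at h3
  have h4 : Multiplicative.toAdd g.2 = 0 :=
    (mul_eq_zero.1 h3).resolve_left (by exact_mod_cast hg.ne')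
  exact h4

theorem inG_conj (c g : G) : IsConj (inG c) (inG g) ↔ IsConj c g := by
  constructor
  · intro h
    obtain ⟨s, hs⟩ := isConj_iff.1 h
    exact isConj_iff.2 ⟨s.1, congrArg Prod.fst hs⟩
  · intro h
    obtain ⟨s, hs⟩ := isConj_iff.1 h
    exact isConj_iff.2 ⟨inG s, by rw [← map_mul, ← map_inv, ← map_mul, hs]⟩

theorem evf_add {M : Type} [AddCommGroup M] [Module k M] (φ ψ : G → M) (x : MonoidAlgebra k G) :
    evf (fun g => φ g + ψ g) x = evf φ x + evf ψ x := by
  induction x using MonoidAlgebra.induction_linear with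
  | zero => simp
  | add x y hx hy => rw [map_add, map_add, map_add, hx, hy]; abel
  | single g r => rw [evf_single, evf_single, evf_single, smul_add]

theorem evf_mul (a : k) (φ : G → k) (x : MonoidAlgebra k G) :
    evf (fun g => a * φ g) x = a * evf φ x := by
  induction x using MonoidAlgebra.induction_linear with
  | zero => simp
  | add x y hx hy => rw [map_add, map_add, hx, hy, mul_add]
  | single g r => rw [evf_single, evf_single, smul_eq_mul, smul_eq_mul, mul_left_comm]

theorem evf_sum (φ : G → k) (x : MonoidAlgebra k G) :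
    evf φ x = x.coeff.sum fun g a => a * φ g := by
  classical
  induction x using MonoidAlgebra.induction_linear with
  | zero => simp
  | add x y hx hy =>
    rw [map_add, hx, hy, coeff_add, Finsupp.sum_add_index']
    · intro g; exact zero_mul _
    · intro g a b; exact add_mul _ _ _
  | single g r =>
    rw [evf_single, coeff_single, Finsupp.sum_single_index (zero_mul _), smul_eq_mul]

/-- the traces of `[e] ⊗ t` -/
theorem Tr_t {c : G × Multiplicative ℤ} {χ : G × Multiplicative ℤ → ℤ} (hχ : AddOnC c χ)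
    (hc : 0 < orderOf c) {n : ℕ} (e : IdMat (MonoidAlgebra k G) n) :
    Tr k hχ (nz inG tG tG_comm' (K0.mk e)) = ((χ tG : ℤ) : k) * rank c.1 e := by
  classical
  have h2 := snd_one hc
  have hc1 : c = inG c.1 := Prod.ext rfl h2
  rw [← cl0_fin]
  unfold Tr
  rw [Dn_nz']
  unfold rank
  rw [Finset.mul_sum]
  refine Finset.sum_congr rfl fun i _ => ?_
  have h3 : (fun g : G => cocf c (fun g => ((χ g : ℤ) : k)) (inG g * tG⁻¹) tG) =
      fun g => ((χ tG : ℤ) : k) * (if IsConj c.1 g then 1 else 0) := by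
    funext g
    rw [cocf_val c _ (inG g) tG (tG_comm' g)]
    have h4 : IsConj c (inG g) ↔ IsConj c.1 g := by
      conv_lhs => rw [hc1]
      exact inG_conj c.1 g
    by_cases h : IsConj c.1 g
    · rw [if_pos (h4.2 h), if_pos h, mul_one]
      congr 2
      have h5 : ∀ s : G × Multiplicative ℤ, s⁻¹ * tG * s = tG := by
        intro s
        apply Prod.ext
        · show s.1⁻¹ * 1 * s.1 = 1
          group
        · show s.2⁻¹ * Multiplicative.ofAdd 1 * s.2 = Multiplicative.ofAdd 1
          rw [mul_comm, mul_inv_cancel_left]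
      exact h5 _
    · rw [if_neg fun h' => h (h4.1 h'), if_neg h, mul_zero]
  rw [h3, evf_mul, evf_sum]
  congr 1
  refine Finsupp.sum_congr fun g _ => ?_
  split_ifs
  · rw [mul_one]
  · rw [mul_zero]

/-- the product with the generator of the integers -/
def nzT (k G : Type) [CommRing k] [Group G] :
    GK0 k G →+ K1 (MonoidAlgebra k (G × Multiplicative ℤ)) :=
  (nz inG tG tG_comm' : K0 (MonoidAlgebra k G) →+ K1 (MonoidAlgebra k (G × Multiplicative ℤ)))

/-- the Hattori–Stallings rank -/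
def hsr (k : Type) [CommRing k] (c : G) : GK0 k G →+ k :=
  (Tr k (prz_add (inG c))).comp (nzT k G)

theorem hsr_apply (c : G) (x : GK0 k G) : hsr k c x = Tr k (prz_add (inG c)) (nzT k G x) := rfl

theorem ord_inG (c : G) : orderOf (inG c : G × Multiplicative ℤ) = orderOf c :=
  orderOf_injective inG (fun _ _ h => congrArg Prod.fst h) c

theorem Tr_nzT {c : G × Multiplicative ℤ} {χ : G × Multiplicative ℤ → ℤ} (hχ : AddOnC c χ)
    (hc : 0 < orderOf c) {n : ℕ} (e : IdMat (MonoidAlgebra k G) n) :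
    Tr k hχ (nzT k G (GK0.mk e)) = ((χ tG : ℤ) : k) * rank c.1 e := Tr_t hχ hc e

theorem hsr_mk {c : G} (hc : 0 < orderOf c) {n : ℕ} (e : IdMat (MonoidAlgebra k G) n) :
    hsr k c (GK0.mk e) = rank c e := by
  rw [hsr_apply, Tr_nzT _ (by rw [ord_inG]; exact hc)]
  show (((1 : ℤ)) : k) * rank c e = rank c e
  rw [Int.cast_one, one_mul]

theorem GK0_exists (x : GK0 k G) : ∃ (m n : ℕ) (e : IdMat (MonoidAlgebra k G) m)
    (f : IdMat (MonoidAlgebra k G) n), x = GK0.mk e - GK0.mk f := K0_exists x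

theorem mem_Tz0 (x : GK0 k G) : x ∈ Tz0 k G ↔ ∀ c : G, 0 < orderOf c → hsr k c x = 0 := by
  constructor
  · intro hx c hc
    have key : Tz0 k G ≤ (hsr k c).ker := by
      unfold Tz0
      refine (AddSubgroup.closure_le _).2 ?_
      rintro _ ⟨n, e, n', e', h, rfl⟩
      show hsr k c (GK0.mk e - GK0.mk e') = 0
      rw [map_sub, hsr_mk hc, hsr_mk hc, h c (orderOf_pos_iff.1 hc), sub_self]
    exact key hx
  · intro h
    obtain ⟨m, n, e, f, rfl⟩ := GK0_exists x
    refine AddSubgroup.subset_closure ⟨m, e, n, f, fun c hc => ?_, rfl⟩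
    have h1 := h c (orderOf_pos_iff.2 hc)
    rw [map_sub, hsr_mk (orderOf_pos_iff.2 hc), hsr_mk (orderOf_pos_iff.2 hc), sub_eq_zero] at h1
    exact h1

theorem nz_Tz0 {x : GK0 k G} (hx : x ∈ Tz0 k G) :
    (nzT k G x : GK1 k (G × Multiplicative ℤ)) ∈ Tz1 k (G × Multiplicative ℤ) := by
  refine (mem_Tz1 _).2 fun c χ hχ hc => ?_
  obtain ⟨m, n, e, f, rfl⟩ := GK0_exists x
  have ho : 0 < orderOf c.1 := by
    have h2 := snd_one hc
    have hc1 : c = inG c.1 := Prod.ext rfl h2
    rw [← ord_inG, ← hc1]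
    exact hc
  have h1 := (mem_Tz0 _).1 hx c.1 ho
  rw [map_sub, hsr_mk ho, hsr_mk ho, sub_eq_zero] at h1
  rw [map_sub, map_sub, Tr_nzT hχ hc, Tr_nzT hχ hc, h1, sub_self]

end hs

section ret

variable {k G : Type} [CommRing k] [Group G]

/-- the map of a symbol -/
def rK (H : FinSub (G × Multiplicative ℤ)) (z : Cz H.1) : GK0 k H.1 →+ GK0 k G :=
  Multiplicative.toAdd (z : G × Multiplicative ℤ).2 • (GK0.map (prF H) : GK0 k H.1 →+ GK0 k G)

theorem rK_eq (H : FinSub (G × Multiplicative ℤ)) (z : Cz H.1) (x : GK0 k H.1) :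
    rK H z x = Multiplicative.toAdd (z : G × Multiplicative ℤ).2 • GK0.map (prF H) x := rfl

theorem rK_rel (H K : FinSub (G × Multiplicative ℤ)) (g : G × Multiplicative ℤ)
    (φ : H.1 →* K.1) (z : Cz H.1) (z' : Cz K.1)
    (hφ : ∀ h : H.1, (φ h : G × Multiplicative ℤ) = g * h * g⁻¹)
    (hz : (z' : G × Multiplicative ℤ) = g * z * g⁻¹) (x : GK0 k H.1) :
    rK K z' (GK0.map φ x) = rK H z x := by
  have h1 : (z' : G × Multiplicative ℤ).2 = (z : G × Multiplicative ℤ).2 := by
    rw [hz]
    show g.2 * (z : G × Multiplicative ℤ).2 * g.2⁻¹ = _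
    rw [mul_comm, inv_mul_cancel_left]
  have h2 : (prF K).comp φ = (MulAut.conj g.1).toMonoidHom.comp (prF H) := by
    ext h
    exact conj_prF H K g φ hφ h
  have h3 : (GK0.map (prF K) (GK0.map φ x) : GK0 k G) = GK0.map ((prF K).comp φ) x :=
    Pool.Agent.T9h42.Q.map_map φ (prF K) x
  have h4 : (GK0.map (MulAut.conj g.1).toMonoidHom (GK0.map (prF H) x) : GK0 k G) =
      GK0.map ((MulAut.conj g.1).toMonoidHom.comp (prF H)) x :=
    Pool.Agent.T9h42.Q.map_map (prF H) (MulAut.conj g.1).toMonoidHom x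
  have h5 : (GK0.map (MulAut.conj g.1).toMonoidHom (GK0.map (prF H) x) : GK0 k G) =
      GK0.map (prF H) x := K0map_conj_group g.1 _
  rw [rK_eq, rK_eq, h1, h3, h2, ← h4, h5]

/-- the retraction for `K₀` -/
def ret0 (k G : Type) [CommRing k] [Group G] : ZK k (G × Multiplicative ℤ) →+ GK0 k G :=
  ZK.lift rK
    (fun H z z' x => by
      rw [rK_eq, rK_eq, rK_eq, ← add_smul]
      rfl)
    rK_rel

theorem ret0_of (H : FinSub (G × Multiplicative ℤ)) (z : Cz H.1) (x : GK0 k H.1) :
    ret0 k G (ZK.of H z x) = rK H z x := ZK.lift_of _ _ _ H z x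

theorem tr_ret_aux (c : G) (H : FinSub (G × Multiplicative ℤ)) (z : Cz H.1)
    (x : K0 (MonoidAlgebra k H.1)) :
    Tr k (prz_add (inG c)) (nz H.1.subtype (z : G × Multiplicative ℤ) (fin_comm _ H z) x) =
      ((Multiplicative.toAdd (z : G × Multiplicative ℤ).2 : ℤ) : k) *
        Tr k (prz_add (inG c)) (nz (inG.comp (prF H)) tG (tG_comm (prF H)) x) := by
  classical
  have := H.2
  induction x using K0.induction with
  | hadd x y hx hy => rw [map_add, map_add, map_add, map_add, hx, hy, mul_add]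
  | hneg x hx => rw [map_neg, map_neg, map_neg, map_neg, hx, mul_neg]
  | hcl n e he =>
    unfold Tr
    rw [Dn_nz', Dn_nz', Finset.mul_sum]
    refine Finset.sum_congr rfl fun i _ => ?_
    rw [← evf_mul]
    congr 1
    congr 1
    funext h
    rw [cocf_val (inG c) _ (H.1.subtype h) z (fin_comm _ H z h),
      cocf_val (inG c) _ ((inG.comp (prF H)) h) tG (tG_comm (prF H) h)]
    have h1 : (inG.comp (prF H)) h = H.1.subtype h := by
      have h2 : 0 < orderOf (h : G × Multiplicative ℤ) := by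
        rw [Subgroup.orderOf_coe]
        exact orderOf_pos h
      exact (Prod.ext rfl (snd_one h2).symm)
    have hpr : ∀ s w : G × Multiplicative ℤ, prz (s⁻¹ * w * s) = prz w := by
      intro s w
      show Multiplicative.toAdd (s.2⁻¹ * w.2 * s.2) = Multiplicative.toAdd w.2
      rw [mul_comm, mul_inv_cancel_left]
    rw [h1]
    split_ifs
    · rw [hpr, hpr]
      show ((Multiplicative.toAdd (z : G × Multiplicative ℤ).2 : ℤ) : k) =
        ((Multiplicative.toAdd (z : G × Multiplicative ℤ).2 : ℤ) : k) * (((1 : ℤ)) : k)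
      rw [Int.cast_one, mul_one]
    · rw [mul_zero]

theorem nzT_map {C : Type} [Group C] (φ : C →* G) (x : GK0 k C) :
    nzT k G (GK0.map φ x) = nz (inG.comp φ) tG (tG_comm φ) x :=
  nz_conj (inG : G →* G × Multiplicative ℤ) (inG.comp φ) φ
      (1 : G × Multiplicative ℤ) (fun y => one_cj ((inG.comp φ) y)) tG tG tG_comm'
      (tG_comm φ) (one_cj tG) x

theorem tr_ret (c : G) (V : ZK k (G × Multiplicative ℤ)) :
    Tr k (prz_add (inG c)) (btG k (G × Multiplicative ℤ) V) = hsr k c (ret0 k G V) := by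
  induction V using ZK.induction with
  | h0 => rw [map_zero, map_zero, map_zero, map_zero]
  | hadd x y hx hy => rw [map_add, map_add, map_add, map_add, hx, hy]
  | hneg x hx => rw [map_neg, map_neg, map_neg, map_neg, hx]
  | hι H z x =>
    have h1 : hsr k c (ret0 k G (ZK.of H z x)) =
        ((Multiplicative.toAdd (z : G × Multiplicative ℤ).2 : ℤ) : k) *
          hsr k c (GK0.map (prF H) x) := by
      rw [ret0_of, rK_eq, map_zsmul, zsmul_eq_mul]
    rw [h1, btG_of, hsr_apply, nzT_map]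
    exact tr_ret_aux c H z x

theorem field_surj0 {K : Type} [Field K] [CharZero K] (x : GK0 K G) :
    ∃ M : ℕ, 0 < M ∧ ∃ V : ZK K (G × Multiplicative ℤ), M • x - ret0 K G V ∈ Tz0 K G := by
  obtain ⟨M, V, hM, hV⟩ := all_tr (nzT K G x)
  refine ⟨M, hM, V, (mem_Tz0 _).2 fun c hc => ?_⟩
  have h4 := hV (inG c) prz (prz_add (inG c)) (by rw [ord_inG]; exact hc)
  rw [tr_ret] at h4
  rw [map_sub, map_nsmul, h4, ← hsr_apply, nsmul_eq_mul, sub_self]

end ret

section main

variable {F : Type} [Field F] {S : Places F} {G : Type} [Group G]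

theorem asm_szC {C : Type} [Group C] [Finite C] (φ : C →* G) (u : KM S C) :
    asm S G (szC S φ u) = KM.map S φ u := by
  rw [szC_apply, asm_ι, KM.map_comp]
  rfl

theorem asm_ret (i : S.I) (V : LZ S (G × Multiplicative ℤ) i) :
    asm S G (ret S G (thm i V)) = sg0 i (ret0 (S.K i) G V : L0 S G i) := by
  induction V using ZK.induction with
  | h0 =>
    rw [map_zero, map_zero, map_zero, map_zero]
    exact (map_zero (sg0 i)).symm
  | hadd x y hx hy =>
    rw [map_add, map_add, map_add, map_add, hx, hy]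
    exact (map_add (sg0 i) _ _).symm
  | hneg x hx =>
    rw [map_neg, map_neg, map_neg, map_neg, hx]
    exact (map_neg (sg0 i) _).symm
  | hι H z x =>
    have := H.2
    rw [thm_of, ret_of, rH_eq, map_zsmul, asm_szC, map_sg0, ret0_of, rK_eq]
    exact (map_zsmul (sg0 (S := S) (H := G) i) _ _).symm

theorem KM_surj [CharZero F] (κ : KM S G) : ∃ n : ℕ, 0 < n ∧ ∃ y : KMColim S G,
    n • κ - asm S G y ∈ TzM S G := by
  classical
  obtain ⟨z, rfl⟩ := km0_surj κ
  have key : ∀ w : Π₀ i : S.I, L0 S G i, ∃ n : ℕ, 0 < n ∧ ∃ y : KMColim S G,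
      n • km0 S G (w : Loc0 S G) - asm S G y ∈ TzM S G := by
    intro w
    induction w using DFinsupp.induction with
    | h0 =>
      refine ⟨1, one_pos, 0, ?_⟩
      have h1 : km0 S G (0 : Loc0 S G) = 0 := map_zero _
      rw [one_smul, map_zero, sub_zero]
      exact h1 ▸ AddSubgroup.zero_mem _
    | ha i x f _ _ ih =>
      have h1 : km0 S G (DFinsupp.single (β := L0 S G) i x + f : Π₀ i : S.I, L0 S G i) =
          sg0 i x + km0 S G f := map_add (km0 S G) _ _
      have h2 : ∃ n : ℕ, 0 < n ∧ ∃ y : KMColim S G,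
          n • (sg0 i x : KM S G) - asm S G y ∈ TzM S G := by
        have := czK S i
        obtain ⟨M, hM, V, hV⟩ := field_surj0 (K := S.K i) x
        refine ⟨M, hM, ret S G (thm i V), ?_⟩
        rw [asm_ret]
        let y : L0 S G i := ret0 (S.K i) G V
        have h3 : M • sg0 (S := S) (H := G) i x - sg0 i y = sg0 i (M • x - y) := by
          rw [← map_nsmul]
          exact (map_sub (sg0 i) _ _).symm
        show M • sg0 (S := S) (H := G) i x - sg0 i y ∈ TzM S G
        rw [h3, sg0_at]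
        exact AddSubgroup.subset_closure ⟨i, _, hV, rfl⟩
      have h3 := surj_add (asm S G) (TzM S G) h2 ih
      rw [← h1] at h3
      exact h3
  exact key z

theorem nzM_at (i : S.I) (x : GK0 (S.K i) G) :
    nzM S inG tG tG_comm' (KM.at i x) = KO.at i (nzT (S.K i) G x) := by
  have h1 := nzM_sg0 (S := S) (inG : G →* G × Multiplicative ℤ) tG tG_comm' i x
  exact h1

theorem nzM_TzM {κ : KM S G} (hκ : κ ∈ TzM S G) :
    nzM S inG tG tG_comm' κ ∈ TzO S (G × Multiplicative ℤ) := by
  unfold TzM at hκ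
  induction hκ using AddSubgroup.closure_induction with
  | mem y hy =>
    obtain ⟨i, x, hx, rfl⟩ := hy
    rw [nzM_at]
    exact AddSubgroup.subset_closure ⟨i, nzT (S.K i) G x, nz_Tz0 hx, rfl⟩
  | zero => rw [map_zero]; exact AddSubgroup.zero_mem _
  | add x y _ _ hx hy => rw [map_add]; exact AddSubgroup.add_mem _ hx hy
  | neg x _ hx => rw [map_neg]; exact AddSubgroup.neg_mem _ hx

theorem KM_ker [CharZero F] (hS : S.Good) (x : KMColim S G) (hx : asm S G x ∈ TzM S G) :
    ∃ l : ℕ, 0 < l ∧ l • x = 0 := by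
  obtain ⟨l, hl, h2⟩ := KO_ker hS (toZ S G x) (by rw [bM_toZ]; exact nzM_TzM hx)
  refine ⟨l, hl, ?_⟩
  have h3 := ret_dv S h2
  rwa [map_nsmul, ret_toZ] at h3

theorem KM_splits [CharZero F] (hS : S.Good) :
    Splits (asm S G) (TzM S G) (⊥ : AddSubgroup (KMColim S G)) := by
  refine ⟨KM_surj, fun x hx => ?_, fun a ha => ?_⟩
  · obtain ⟨l, hl, h1⟩ := KM_ker hS x hx
    exact ⟨l, hl, by rw [AddSubgroup.mem_bot, h1]⟩
  · rw [AddSubgroup.mem_bot.1 ha, map_zero]
    exact AddSubgroup.zero_mem _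

end main

end

end Pool.Agent.T9h42.KS
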