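import Pool.Agent.T9h42.DP.Stm
import Pool.Agent.T9h42.GZ.Stm

/-!
# Definitions for the statements on rational splittings, degree one
-/

namespace Pool.Agent.T9h42.KS

open MonoidAlgebra Pool.Agent.Y778.NK Pool.Agent.Y69.FJK Pool.Agent.T9h42
open Pool.Agent.T9h42.GZ (IsCocycle dennis)
open Pool.Agent.Y69 (FinSub)

noncomputable section

/-- The map `K₀(k[H]) → K₀(l[H])` induced by `θ : k → l`. -/
def coef {k l : Type} [CommRing k] [CommRing l] (θ : k →+* l) (H : Type) [Group H] :
    GK0 k H →+ GK0 l H := K0.map (mapRingHom H θ)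

/-- The Dennis trace of the invertible matrix `A` vanishes at the elements of finite order: it is
killed by all Hochschild `1`-cocycles `f : G × G → ℤ` with `f(x, y) = 0` if `x y` has infinite
order. -/
def NoTrace {R G : Type} [CommRing R] [Group G] {n : ℕ}
    (A : (Matrix (Fin n) (Fin n) (MonoidAlgebra R G))ˣ) : Prop :=
  ∀ f : G → G → ℤ, IsCocycle f → (∀ x y, ¬ IsOfFinOrder (x * y) → f x y = 0) → dennis f A = 0

/-- The subgroup of `K₁(R[G])` generated by the classes of the matrices whose Dennis trace vanishes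
at the elements of finite order. -/
def Tz1 (R G : Type) [CommRing R] [Group G] : AddSubgroup (GK1 R G) :=
  AddSubgroup.closure {b | ∃ (n : ℕ) (A : (Matrix (Fin n) (Fin n) (MonoidAlgebra R G))ˣ),
    NoTrace A ∧ b = GK1.mk A}

/-- The subgroup of `ZK(k, G)` generated by the symbols `[C, z, x]`, where `C` is cyclic and all
homomorphisms from the centralizer of `C` to the integers vanish at `z`. -/
def DvK (k G : Type) [CommRing k] [Group G] : AddSubgroup (ZK k G) :=
  AddSubgroup.closure {y | ∃ (H : FinSub G) (z : Cz H.1) (x : GK0 k H.1),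
    IsCyclic H.1 ∧ (∀ χ : Cz H.1 →* Multiplicative ℤ, χ z = 1) ∧ y = ZK.of H z x}

/-- Up to torsion `B` is the sum of `β(A)` and `T`, and `β⁻¹(T)` is `D`: every element of `B` has a
positive multiple in `β(A) + T`, a positive multiple of every element of `β⁻¹(T)` is in `D`, and
`β(D)` is in `T`. -/
def Splits {A B : Type} [AddCommGroup A] [AddCommGroup B] (β : A →+ B) (T : AddSubgroup B)
    (D : AddSubgroup A) : Prop :=
  (∀ b : B, ∃ n : ℕ, 0 < n ∧ ∃ a : A, n • b - β a ∈ T) ∧
    (∀ a : A, β a ∈ T → ∃ l : ℕ, 0 < l ∧ l • a ∈ D) ∧ ∀ a ∈ D, β a ∈ T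

/-- If `C` is a finite cyclic subgroup, then every element of the centralizer of `C` at which all
homomorphisms to the integers vanish has a positive power in the commutator subgroup of the
centralizer. -/
def ZTor (G : Type) [Group G] : Prop :=
  ∀ (C : FinSub G) (z : Cz C.1), IsCyclic C.1 →
    (∀ χ : Cz C.1 →* Multiplicative ℤ, χ z = 1) → ∃ m, 0 < m ∧ z ^ m ∈ commutator (Cz C.1)

end

end Pool.Agent.T9h42.KS
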