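import Pool.Agent.T9h42.DD.StmC
import Pool.Agent.T9h42.SP.StmR

/-!
# Definitions for the statements on rational splittings, degrees zero and minus one
-/

namespace Pool.Agent.T9h42.KS

open MonoidAlgebra Pool.Agent.Y778.NK Pool.Agent.Y69.FJK Pool.Agent.T9h42 Pool.Agent.T9h42.KD
open Pool.Agent.Y69 (FinSub)

noncomputable section

open Classical in
/-- The Hattori–Stallings rank of an idempotent matrix at the conjugacy class of `c`: the sum of the
coefficients of the diagonal entries at the conjugates of `c`. -/
def rank {k G : Type} [CommRing k] [Group G] (c : G) {n : ℕ} (e : IdMat (MonoidAlgebra k G) n) :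
    k := ∑ i, (e.1 i i).coeff.sum fun g a => if IsConj c g then a else 0

/-- The subgroup of `K₀(k[G])` generated by the differences `[e] - [e']` such that `e` and `e'` have
the same Hattori–Stallings ranks at the elements of finite order. -/
def Tz0 (k G : Type) [CommRing k] [Group G] : AddSubgroup (GK0 k G) :=
  AddSubgroup.closure {x | ∃ (n : ℕ) (e : IdMat (MonoidAlgebra k G) n) (n' : ℕ)
    (e' : IdMat (MonoidAlgebra k G) n'), (∀ c : G, IsOfFinOrder c → rank c e = rank c e') ∧
      x = GK0.mk e - GK0.mk e'}

section loc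

variable {F : Type} [Field F] (S : Places F) (G : Type) [Group G]

/-- The subgroup of `KO(S, G)` generated by the classes `[x]_i` with `x` in `Tz1 (K i) G`. -/
def TzO : AddSubgroup (KO S G) :=
  AddSubgroup.closure {y | ∃ (i : S.I) (x : GK1 (S.K i) G), x ∈ Tz1 (S.K i) G ∧ y = KO.at i x}

/-- The subgroup of `KM(S, G)` generated by the classes `[x]_i` with `x` in `Tz0 (K i) G`. -/
def TzM : AddSubgroup (KM S G) :=
  AddSubgroup.closure {y | ∃ (i : S.I) (x : GK0 (S.K i) G), x ∈ Tz0 (S.K i) G ∧ y = KM.at i x}

end loc

end

end Pool.Agent.T9h42.KS
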