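import Pool.Agent.T9h42.SP.One
import Pool.Agent.T9h42.DD.MainD
import Pool.Agent.T9h42.SP.StmS

/-!
# The splitting in degree zero
-/

set_option linter.unusedSectionVars false

namespace Pool.Agent.T9h42.KS

open MonoidAlgebra H970SH H842 Pool.Agent.Y69 Pool.Agent.Y69.StepC Pool.Agent.Y778.NK
  Pool.Agent.T9h42 Pool.Agent.T9h42.Q Pool.Agent.T9h42.KD
open Pool.Agent.Y69.FJK (GK1)

noncomputable section

variable {F : Type} [Field F] {S : Places F} {G : Type} [Group G]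

theorem czK [CharZero F] (S : Places F) (i : S.I) : CharZero (S.K i) :=
  charZero_of_injective_ringHom (S.toK i).injective

theorem TzO_sum (z : Loc1 S G) (hz : ∀ i, z.at i ∈ Tz1 (S.K i) G) : ko S G z ∈ TzO S G := by
  classical
  have key : ∀ w : Π₀ i : S.I, L1 S G i, (∀ i, w i ∈ Tz1 (S.K i) G) →
      ko S G (w : Loc1 S G) ∈ TzO S G := by
    intro w hw
    have h1 : ∑ i ∈ w.support, si1 i (w i) = (w : Loc1 S G) :=
      DFinsupp.sum_single (β := L1 S G) (f := w)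
    have h2 : ko S G (w : Loc1 S G) = ∑ i ∈ w.support, ko S G (si1 i (w i)) :=
      (congrArg (ko S G) h1.symm).trans (map_sum (ko S G) _ _)
    rw [h2]
    refine AddSubgroup.sum_mem _ fun i _ => ?_
    refine AddSubgroup.subset_closure ⟨i, w i, hw i, ?_⟩
    exact sg1_at i (w i)
  exact key z hz

theorem TzO_lift {y : KO S G} (hy : y ∈ TzO S G) :
    ∃ z : Loc1 S G, ko S G z = y ∧ ∀ i, z.at i ∈ Tz1 (S.K i) G := by
  classical
  unfold TzO at hy
  induction hy using AddSubgroup.closure_induction with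
  | mem y hy =>
    obtain ⟨i, x, hx, rfl⟩ := hy
    refine ⟨si1 i x, sg1_at i x, fun j => ?_⟩
    by_cases hj : i = j
    · subst hj
      have h1 : (si1 i x : Loc1 S G).at i = x :=
        DFinsupp.single_eq_same (β := L1 S G)
      rw [h1]
      exact hx
    · have h1 : (si1 i x : Loc1 S G).at j = 0 :=
        DFinsupp.single_eq_of_ne (β := L1 S G) (Ne.symm hj)
      rw [h1]
      exact AddSubgroup.zero_mem _
  | zero => exact ⟨0, map_zero _, fun i => AddSubgroup.zero_mem _⟩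
  | add x y _ _ hx hy =>
    obtain ⟨z, h1, h2⟩ := hx
    obtain ⟨z', h3, h4⟩ := hy
    exact ⟨z + z', by rw [map_add, h1, h3], fun i => AddSubgroup.add_mem _ (h2 i) (h4 i)⟩
  | neg x _ hx =>
    obtain ⟨z, h1, h2⟩ := hx
    exact ⟨-z, by rw [map_neg, h1], fun i => AddSubgroup.neg_mem _ (h2 i)⟩

theorem surj_add {A B : Type} [AddCommGroup A] [AddCommGroup B] (β : A →+ B) (T : AddSubgroup B)
    {b b' : B} (h : ∃ n : ℕ, 0 < n ∧ ∃ a : A, n • b - β a ∈ T)
    (h' : ∃ n : ℕ, 0 < n ∧ ∃ a : A, n • b' - β a ∈ T) :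
    ∃ n : ℕ, 0 < n ∧ ∃ a : A, n • (b + b') - β a ∈ T := by
  obtain ⟨n, hn, a, ha⟩ := h
  obtain ⟨n', hn', a', ha'⟩ := h'
  refine ⟨n * n', Nat.mul_pos hn hn', n' • a + n • a', ?_⟩
  have e : (n * n') • (b + b') - β (n' • a + n • a') =
      n' • (n • b - β a) + n • (n' • b' - β a') := by
    rw [map_add, map_nsmul, map_nsmul, smul_add, smul_sub, smul_sub, ← mul_smul, ← mul_smul,
      mul_comm n' n]
    abel
  rw [e]
  exact T.add_mem (T.nsmul_mem ha _) (T.nsmul_mem ha' _)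

theorem KO_surj [CharZero F] (κ : KO S G) : ∃ n : ℕ, 0 < n ∧ ∃ y : ZM S G,
    n • κ - bM S G y ∈ TzO S G := by
  classical
  obtain ⟨z, rfl⟩ : ∃ z, ko S G z = κ := QuotientAddGroup.mk'_surjective _ κ
  have key : ∀ w : Π₀ i : S.I, L1 S G i, ∃ n : ℕ, 0 < n ∧ ∃ y : ZM S G,
      n • ko S G (w : Loc1 S G) - bM S G y ∈ TzO S G := by
    intro w
    induction w using DFinsupp.induction with
    | h0 =>
      refine ⟨1, one_pos, 0, ?_⟩
      have h1 : ko S G (0 : Loc1 S G) = 0 := map_zero _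
      rw [one_smul, map_zero, sub_zero]
      exact h1 ▸ AddSubgroup.zero_mem _
    | ha i x f _ _ ih =>
      have h1 : ko S G (DFinsupp.single (β := L1 S G) i x + f : Π₀ i : S.I, L1 S G i) =
          sg1 i x + ko S G f := map_add (ko S G) _ _
      have h2 : ∃ n : ℕ, 0 < n ∧ ∃ y : ZM S G, n • (sg1 i x : KO S G) - bM S G y ∈ TzO S G := by
        have := czK S i
        obtain ⟨M, hM, V, hV⟩ := field_surj (x : K1 (MonoidAlgebra (S.K i) G))
        refine ⟨M, hM, thm i V, ?_⟩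
        rw [bM_thm, ← map_nsmul]
        let y : L1 S G i := btG (S.K i) G V
        have h3 : sg1 (S := S) (G := G) i (M • x) - sg1 i y = sg1 i (M • x - y) :=
          (map_sub (sg1 i) _ _).symm
        show sg1 (S := S) (G := G) i (M • x) - sg1 i y ∈ TzO S G
        rw [h3, sg1_at]
        exact AddSubgroup.subset_closure ⟨i, _, hV, rfl⟩
      have h3 := surj_add (bM S G) (TzO S G) h2 ih
      rw [← h1] at h3
      exact h3
  exact key z

/-- **The kernel.** -/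
theorem glob_ker [CharZero F] (hS : S.Good) (ξ : Π₀ i : S.I, LZ S G i)
    (b : K1 (MonoidAlgebra F G))
    (htr : ∀ (i : S.I) (c : G) (χ : G → ℤ) (hχ : AddOnC c χ), 0 < orderOf c →
      ¬ IsUnit ((orderOf c : ℕ) : S.A i) → Tr (S.K i) hχ (btG (S.K i) G (ξ i)) =
        S.toK i (Tr F hχ b)) : ∃ l : ℕ, 0 < l ∧ l • Thm S G ξ ∈ DvM S G := by
  classical
  have hcz : ∀ i, CharZero (S.K i) := czK S
  obtain ⟨M, v, hM, hv⟩ := descent b S.K S.toK (fun i => ξ i)
    (fun i k => ¬ IsUnit ((k : ℕ) : S.A i)) htr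
  -- the local classes
  have hloc : ∀ i : S.I, ∃ (m : ℕ) (w : ZK (S.A i) G), 0 < m ∧
      m • (M • ξ i - ccZ (S.toK i) G v) - ccZ (S.inK i) G w ∈ DvG (S.K i) G ℤ := by
    intro i
    apply loc_gen (S.inK i) (hS.inj i) (hS.cl i)
    intro c χ hχ hc hs
    rw [map_sub, map_sub, btG_ccZ, Tr_map, hv c χ hχ hc ⟨i, hs⟩, map_nsmul, map_nsmul,
      htr i c χ hχ hc hs, map_mul, map_natCast, nsmul_eq_mul, sub_self]
  choose m w hm hw using hloc
  obtain ⟨S0, hS0⟩ := cancel hS v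
  let T : Finset S.I := ξ.support ∪ S0
  let m0 : ℕ := ∏ i ∈ T, m i
  have hm0 : 0 < m0 := Finset.prod_pos fun p _ => hm p
  have hTh : Thm S G ξ = ∑ i ∈ T, thm i (ξ i) := by
    unfold Thm
    rw [DFinsupp.sumAddHom_apply, DFinsupp.sum]
    refine Finset.sum_subset Finset.subset_union_left ?_
    intro p _ hp
    rw [DFinsupp.notMem_support_iff.1 hp, map_zero]
  refine ⟨m0 * M, Nat.mul_pos hm0 hM, ?_⟩
  have h4 : ∀ i ∈ T, (m0 * M) • thm i (ξ i) - m0 • thm i (ccZ (S.toK i) G v) ∈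
      DvM S G := by
    intro p hp
    obtain ⟨k, hk⟩ := Finset.dvd_prod_of_mem m hp
    have h6 : m0 = k * m p := by rw [mul_comm]; exact hk
    have h7 := AddSubgroup.nsmul_mem _ (thm_dv p (hw p)) k
    rw [map_sub, thm_zp, sub_zero, map_nsmul, map_sub, map_nsmul, ← mul_smul, ← h6, smul_sub,
      ← mul_smul] at h7
    exact h7
  have h8 := AddSubgroup.sum_mem (DvM S G) h4
  rw [Finset.sum_sub_distrib, ← Finset.smul_sum, ← Finset.smul_sum,
    hS0 T Finset.subset_union_right, smul_zero, sub_zero, ← hTh] at h8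
  exact h8

theorem KO_ker [CharZero F] (hS : S.Good) (x : ZM S G) (hx : bM S G x ∈ TzO S G) :
    ∃ l : ℕ, 0 < l ∧ l • x ∈ DvM S G := by
  classical
  obtain ⟨ξ, rfl⟩ := Thm_surj x
  obtain ⟨z, hz, hz0⟩ := TzO_lift hx
  rw [bM_Thm] at hz
  have h1 : ko S G (bL S G ξ - z) = 0 := by rw [map_sub, hz, sub_self]
  obtain ⟨b, hb⟩ := (ko_zero _).1 h1
  choose a ha using hb
  refine glob_ker hS ξ (b : K1 (MonoidAlgebra F G)) ?_
  intro i c χ hχ hc hs
  have := czK S i
  let zi : K1 (MonoidAlgebra (S.K i) G) := z.at i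
  have h2 : btG (S.K i) G (ξ i) - zi =
      K1map (mapRingHom G (S.toK i)) b + K1map (mapRingHom G (S.inK i)) (a i) := ha i
  have h3 := congrArg (Tr (S.K i) hχ) h2
  rw [map_sub, map_add, Tr_map, Tr_map, Tr_sing' (S.inK i) (hS.inj i) (hS.sep i) hχ hc hs,
    map_zero, add_zero] at h3
  have h4 : Tr (S.K i) hχ zi = 0 := (mem_Tz1 _).1 (hz0 i) c χ hχ hc
  rw [h4, sub_zero] at h3
  exact h3

theorem KO_dv {y : ZM S G} (hy : y ∈ DvM S G) : bM S G y ∈ TzO S G := by
  have h : DvM S G ≤ (TzO S G).comap (bM S G) := by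
    unfold DvM
    rw [AddSubgroup.closure_le]
    rintro _ ⟨H, z, x, _, hz, rfl⟩
    show bM S G _ ∈ TzO S G
    rw [bM_of]
    obtain ⟨y, rfl⟩ := km0_surj x
    show ko S G (nzL S H.1.subtype (z : G) (fin_comm G H z) y) ∈ TzO S G
    apply TzO_sum
    intro i
    rw [nzL_at]
    exact (mem_Tz1 (nzp S i H.1.subtype (z : G) (fin_comm G H z) (y.at i))).2
      fun c χ hχ hc => nz_dead H z hz hχ _
  exact h hy

theorem KO_splits [CharZero F] (hS : S.Good) : Splits (bM S G) (TzO S G) (DvM S G) :=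
  ⟨KO_surj, KO_ker hS, fun _ ha => KO_dv ha⟩

theorem KO_splits_sep [CharZero F] (hS : S.Good) (hyp : ZSep G) :
    Splits (bM S G) (TzO S G) (⊥ : AddSubgroup (ZM S G)) := by
  refine ⟨KO_surj, fun x hx => ?_, fun a ha => ?_⟩
  · obtain ⟨l, hl, h1⟩ := KO_ker hS x hx
    obtain ⟨l', hl', h2⟩ := dvM_tors hyp h1
    refine ⟨l' * l, Nat.mul_pos hl' hl, ?_⟩
    rw [AddSubgroup.mem_bot, mul_smul, h2]
  · rw [AddSubgroup.mem_bot.1 ha, map_zero]
    exact AddSubgroup.zero_mem _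

end

end Pool.Agent.T9h42.KS
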