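import Pool.Agent.T9h42.GZ.Sel
import Pool.Agent.T9h42.GZ.FrobC

/-!
# The Frobenius congruence for the traces of homomorphisms on centralizers
-/

set_option linter.unusedSectionVars false

namespace Pool.Agent.T9h42.SP

open MonoidAlgebra H970SH H842 Pool.Agent.Y69 Pool.Agent.Y778.NK Pool.Agent.T9h42
  Pool.Agent.T9h42.Q

noncomputable section

variable {G : Type} [Group G] {R : Type} [CommRing R]

/-- the part of the pulled back cocycle at the elements of order `m` -/
theorem fs_eq {c g : G} {q k : ℕ} (hcg : c ^ q = g) (hgk : g ^ k = c) (hog : orderOf g = orderOf c)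
    (χ : G → ℤ) : fs (cocf g χ) (orderOf c) q = cocs c (fun u => sel g (u ^ q)) χ := by
  funext x y
  unfold fs ar cocf cocs
  have e1 : (x * y) ^ q * y⁻¹ * y = (x * y) ^ q := by group
  have e2 : y * ((x * y) ^ q * y⁻¹) = (y * x) ^ q := by
    have : y * x = y * (x * y) * y⁻¹ := by group
    rw [this, conj_pow, mul_assoc]
  rw [e1, e2]
  by_cases h3 : IsConj c (x * y)
  · obtain ⟨t, ht⟩ := isConj_iff.1 h3
    have h4 : (x * y) ^ orderOf c = 1 := by
      rw [← ht, conj_pow, pow_orderOf_eq_one]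
      group
    have h5 : IsConj g ((x * y) ^ q) := by
      rw [← ht, conj_pow, hcg]
      exact isConj_iff.2 ⟨t, rfl⟩
    rw [if_pos h4, if_pos h5, if_pos h3]
  · rw [if_neg h3]
    by_cases h4 : (x * y) ^ orderOf c = 1
    · rw [if_pos h4, if_neg]
      intro h5
      apply h3
      obtain ⟨t, ht⟩ := isConj_iff.1 h5
      have h6 : ((x * y) ^ q) ^ k = x * y := by
        have h7 : q * k ≡ 1 [MOD orderOf c] := by
          have h8 : c ^ (q * k) = c ^ 1 := by rw [pow_mul, hcg, hgk, pow_one]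
          exact pow_eq_pow_iff_modEq.1 h8
        rw [← pow_mul]
        have h10 := pow_eq_pow_of_modEq h7 h4
        rwa [pow_one] at h10
      rw [← h6, ← ht, conj_pow, hgk]
      exact isConj_iff.2 ⟨t, rfl⟩
    · rw [if_neg h4]

/-- **The congruence.** -/
theorem tr_frob (htf : ∀ (n : ℕ) (x : R), 0 < n → n • x = 0 → x = 0) {q : ℕ} (hq : q.Prime)
    (hsep : ¬ IsUnit ((q : ℕ) : R) → ∀ x : R, (∀ k : ℕ, ∃ y, x = q ^ k • y) → x = 0) {c g : G}
    (hcg : c ^ q = g) (hc : 0 < orderOf c) (hqc : ¬ q ∣ orderOf c) {χ : G → ℤ} (hχ : AddOnC g χ)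
    (hχ' : AddOnC c χ) (x : K1 (MonoidAlgebra R G)) :
    ∃ r, Tr R hχ x = Tr R hχ' x ^ q + q * r := by
  classical
  by_cases hu : IsUnit ((q : ℕ) : R)
  · obtain ⟨u, hu⟩ := hu
    refine ⟨((u⁻¹ : Rˣ) : R) * (Tr R hχ x - Tr R hχ' x ^ q), ?_⟩
    rw [← hu, ← mul_assoc, Units.mul_inv]
    ring
  obtain ⟨n, A, rfl⟩ := K1_exists x
  have hcop : q.Coprime (orderOf c) := hq.coprime_iff_not_dvd.2 hqc
  obtain ⟨k, hk⟩ := exists_pow_eq_self_of_coprime hcop
  rw [hcg] at hk
  have hog : orderOf g = orderOf c := by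
    rw [← hcg]
    exact hcop.symm.orderOf_pow
  have hg : 0 < orderOf g := by rw [hog]; exact hc
  rw [Tr_cl, Tr_cl]
  obtain ⟨r, hr⟩ := prg_frob_all (R := R) hq (cocf g χ) (cocf_coc hχ)
    (fun x y h => cocf_supp hg x y h) A.mul_inv A.inv_mul
  have key : prg (fun x y => ((fr (cocf g χ) q x y : ℤ) : R)) (A⁻¹).val A.val =
      prg (fun x y => ((cocf c χ x y : ℤ) : R)) (A⁻¹).val A.val := by
    have hσ : IsSel c (fun u => sel g (u ^ q)) := by
      intro u hu
      obtain ⟨t, ht⟩ := isConj_iff.1 hu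
      have h1 : IsConj g (u ^ q) := by
        rw [← ht, conj_pow, hcg]
        exact isConj_iff.2 ⟨t, rfl⟩
      have h2 := sel_spec h1
      have h3 : (u ^ q) ^ k = u := by
        rw [← ht, conj_pow, conj_pow, hcg, hk]
      show sel g (u ^ q) * c * (sel g (u ^ q))⁻¹ = u
      have h4 := congrArg (fun z => z ^ k) h2
      simp only [conj_pow] at h4
      rw [hk, h3] at h4
      exact h4
    rw [cocf_eq c χ, ← prg_sel (R := R) (isSel_sel c) hσ hχ' A.mul_inv A.inv_mul,
      ← fs_eq hcg hk hog χ]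
    let D : G → G → ℤ := fun x y => if ¬ (x * y) ^ orderOf c = 1 then fr (cocf g χ) q x y else 0
    have hDc : ∀ x y z, D (x * y) z - D x (y * z) + D (z * x) y = 0 := by
      intro x y z
      exact cut_coc (fr (cocf g χ) q) (fr_coc (cocf g χ) (cocf_coc hχ) q)
        (fun g => ¬ g ^ orderOf c = 1) (fun x y => not_congr (pow_cyc (orderOf c) x y)) x y z
    have hD : prg (fun x y => ((D x y : ℤ) : R)) (A⁻¹).val A.val = 0 := by
      refine prg_sing (p := q) _ ?_ htf hq (hsep hu) ?_ A.mul_inv A.inv_mul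
      · intro x y z
        have h1 := congrArg (fun z : ℤ => (z : R)) (hDc x y z)
        simpa using h1
      · intro x y hxy
        show ((D x y : ℤ) : R) = 0
        have h0 : D x y = 0 := by
          show (if ¬ (x * y) ^ orderOf c = 1 then fr (cocf g χ) q x y else 0) = 0
          split_ifs with h1
          · rfl
          · unfold fr ar cocf
            rw [if_neg]
            rw [inv_mul_cancel_right]
            intro h2
            apply hxy
            obtain ⟨t, ht⟩ := isConj_iff.1 h2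
            have h3 : (x * y) ^ (q * orderOf c) = 1 := by
              rw [pow_mul, ← ht, conj_pow, ← hog, pow_orderOf_eq_one]
              group
            have h4 : 0 < orderOf (x * y) := orderOf_pos_iff.2
              (isOfFinOrder_iff_pow_eq_one.2 ⟨q * orderOf c, Nat.mul_pos hq.pos hc, h3⟩)
            refine ⟨h4, ?_⟩
            by_contra h5
            have h6 : orderOf (x * y) ∣ q * orderOf c := orderOf_dvd_of_pow_eq_one h3
            have h7 : (orderOf (x * y)).Coprime q := ((hq.coprime_iff_not_dvd).2 h5).symm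
            exact h1 (orderOf_dvd_iff_pow_eq_one.1 (h7.dvd_of_dvd_mul_left h6))
        rw [h0, Int.cast_zero]
    have hsum : ∀ x y, fr (cocf g χ) q x y = fs (cocf g χ) (orderOf c) q x y + D x y := by
      intro x y
      show _ = (if (x * y) ^ orderOf c = 1 then ar (cocf g χ) y ((x * y) ^ q) else 0) +
        (if ¬ (x * y) ^ orderOf c = 1 then fr (cocf g χ) q x y else 0)
      by_cases h : (x * y) ^ orderOf c = 1
      · rw [if_pos h, if_neg (not_not.2 h), add_zero]
        rfl
      · rw [if_neg h, if_pos h, zero_add]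
    let S := spt A.val ∪ spt (A⁻¹).val
    have hS1 : spt A.val ⊆ S := Finset.subset_union_left
    have hS2 : spt (A⁻¹).val ⊆ S := Finset.subset_union_right
    rw [prg_eq _ (A⁻¹).val A.val S hS1 hS2, prg_eq _ (A⁻¹).val A.val S hS1 hS2]
    rw [prg_eq _ (A⁻¹).val A.val S hS1 hS2] at hD
    rw [← add_zero (∑ d : S × S, (cf (A⁻¹).val ↑d.1 * cf A.val ↑d.2).trace •
      ((fs (cocf g χ) (orderOf c) q ↑d.1 ↑d.2 : ℤ) : R)), ← hD, ← Finset.sum_add_distrib]
    refine Finset.sum_congr rfl fun d _ => ?_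
    rw [hsum, Int.cast_add, smul_add]
  exact ⟨r, by rw [hr, key]⟩

end

end Pool.Agent.T9h42.SP
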