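import Mathlib

/-!
# A number field in which all large primes split completely is `ℚ`
-/

set_option linter.unusedSectionVars false

namespace Pool.Agent.T9h42.SP

open Ideal NumberField Filter UniqueFactorizationMonoid Topology

noncomputable section

section two

variable {A : Type} [CommRing A] [IsDedekindDomain A] [CharZero A] [Module.Free ℤ A]
  [Module.Finite ℤ A]

/-- residue fields -/
theorem norm_max {q : ℕ} (hq : q.Prime) (h : ∀ x : A, ∃ y, x ^ q = x + q * y) (P : Ideal A)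
    (hP : P.IsMaximal) (hqP : (q : A) ∈ P) : absNorm P = q := by
  classical
  let _ := Ideal.Quotient.field P
  have hP0 : P ≠ ⊥ := by
    rintro rfl
    have h1 : (q : A) = 0 := by simpa using hqP
    exact hq.ne_zero (by exact_mod_cast h1)
  have hfin : Finite (A ⧸ P) := by
    have := Ideal.finiteQuotientOfFreeOfNeBot P hP0
    exact this
  have := Fintype.ofFinite (A ⧸ P)
  have hchar : CharP (A ⧸ P) q := by
    have h1 : ((q : ℕ) : A ⧸ P) = 0 := by
      have : (Ideal.Quotient.mk P (q : A)) = 0 := Ideal.Quotient.eq_zero_iff_mem.2 hqP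
      simpa using this
    have h2 := CharP.exists (A ⧸ P)
    obtain ⟨c, hc⟩ := h2
    have h3 : c ∣ q := (CharP.cast_eq_zero_iff (A ⧸ P) c q).1 h1
    have h4 : c ≠ 1 := CharP.char_ne_one (A ⧸ P) c
    have h5 : c = q := ((Nat.dvd_prime hq).1 h3).resolve_left h4
    exact h5 ▸ hc
  have hroot : ∀ x : A ⧸ P, x ^ q = x := by
    intro x
    obtain ⟨a, rfl⟩ := Ideal.Quotient.mk_surjective x
    obtain ⟨y, hy⟩ := h a
    rw [← map_pow, hy, map_add, map_mul]
    have : (Ideal.Quotient.mk P (q : A)) = 0 := Ideal.Quotient.eq_zero_iff_mem.2 hqP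
    rw [this, zero_mul, add_zero]
  have hle : Fintype.card (A ⧸ P) ≤ q := by
    have h1 : (Finset.univ : Finset (A ⧸ P)) ⊆
        (Polynomial.X ^ q - Polynomial.X : Polynomial (A ⧸ P)).roots.toFinset := by
      intro x _
      rw [Multiset.mem_toFinset, Polynomial.mem_roots (FiniteField.X_pow_card_sub_X_ne_zero _ hq.one_lt)]
      show Polynomial.eval x _ = 0
      simp [hroot x]
    have h2 := Finset.card_le_card h1
    have h3 := Multiset.toFinset_card_le
      (Polynomial.X ^ q - Polynomial.X : Polynomial (A ⧸ P)).roots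
    have h4 := Polynomial.card_roots' (Polynomial.X ^ q - Polynomial.X : Polynomial (A ⧸ P))
    rw [FiniteField.X_pow_card_sub_X_natDegree_eq _ hq.one_lt] at h4
    exact h2.trans (h3.trans h4)
  have hge : q ≤ Fintype.card (A ⧸ P) := by
    have : Fact q.Prime := ⟨hq⟩
    let _ : Algebra (ZMod q) (A ⧸ P) := ZMod.algebra _ q
    have h1 := Fintype.card_le_of_injective _ (algebraMap (ZMod q) (A ⧸ P)).injective
    rwa [ZMod.card] at h1
  rw [absNorm_apply, Submodule.cardQuot_apply, Nat.card_eq_fintype_card]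
  exact le_antisymm hle hge

/-- two primes -/
theorem two_primes {q : ℕ} (hq : q.Prime) (h : ∀ x : A, ∃ y, x ^ q = x + q * y)
    (hn : 2 ≤ Module.finrank ℤ A) : ∃ P Q : Ideal A, P ≠ Q ∧ P.IsPrime ∧ Q.IsPrime ∧
      P ≠ ⊥ ∧ Q ≠ ⊥ ∧ absNorm P = q ∧ absNorm Q = q := by
  classical
  have hq0 : (q : A) ≠ 0 := by exact_mod_cast hq.ne_zero
  let I : Ideal A := Ideal.span {(q : A)}
  have hI0 : I ≠ ⊥ := by
    intro h1
    exact hq0 (Ideal.span_singleton_eq_bot.1 h1)
  have hnorm : absNorm I = q ^ Module.finrank ℤ A := by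
    rw [Ideal.absNorm_span_singleton]
    have h1 : ((q : ℕ) : A) = algebraMap ℤ A (q : ℤ) := by simp
    rw [h1, Algebra.norm_algebraMap, Int.natAbs_pow, Int.natAbs_natCast]
  have hmem : ∀ P ∈ normalizedFactors I, P.IsPrime ∧ P ≠ ⊥ ∧ (q : A) ∈ P := by
    intro P hP
    have h1 := prime_of_normalized_factor P hP
    have h2 := dvd_of_mem_normalizedFactors hP
    exact ⟨Ideal.isPrime_of_prime h1, h1.ne_zero, (Ideal.dvd_iff_le.1 h2)
      (Ideal.mem_span_singleton_self _)⟩
  have hnm : ∀ P ∈ normalizedFactors I, absNorm P = q := by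
    intro P hP
    obtain ⟨h1, h2, h3⟩ := hmem P hP
    exact norm_max hq h P (h1.isMaximal h2) h3
  have hIne : I ≠ ⊤ := by
    intro h1
    rw [h1, Ideal.absNorm_top] at hnorm
    have h2 : 1 < q ^ Module.finrank ℤ A := Nat.one_lt_pow (by omega) hq.one_lt
    omega
  have hex : ∃ P, P ∈ normalizedFactors I := by
    by_contra hc
    push Not at hc
    have h1 : normalizedFactors I = 0 := Multiset.eq_zero_of_forall_notMem hc
    have h2 := Ideal.prod_normalizedFactors_eq_self hI0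
    rw [h1, Multiset.prod_zero] at h2
    exact hIne (h2.symm.trans Ideal.one_eq_top)
  obtain ⟨P, hP⟩ := hex
  by_cases hall : ∀ Q ∈ normalizedFactors I, Q = P
  · exfalso
    obtain ⟨h1, h2, h3⟩ := hmem P hP
    have h4 : I = P ^ Multiset.card (normalizedFactors I) := by
      conv_lhs => rw [← Ideal.prod_normalizedFactors_eq_self hI0]
      rw [Multiset.eq_replicate_card.2 hall, Multiset.prod_replicate, Multiset.card_replicate]
    have h5 : q ^ Multiset.card (normalizedFactors I) = q ^ Module.finrank ℤ A := by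
      rw [← hnorm]
      conv_rhs => rw [h4]
      rw [map_pow, hnm P hP]
    have h6 := Nat.pow_right_injective hq.two_le h5
    have h7 : P ≤ P ^ 2 := by
      intro x hx
      obtain ⟨y, hy⟩ := h x
      have h8 : (q : A) * y ∈ P ^ 2 := by
        have h9 : (q : A) ∈ P ^ 2 := by
          have h10 : I ≤ P ^ 2 := by
            rw [h4]
            exact Ideal.pow_le_pow_right (by omega)
          exact h10 (Ideal.mem_span_singleton_self _)
        exact Ideal.mul_mem_right _ _ h9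
      have h9 : x ^ q ∈ P ^ 2 :=
        Ideal.pow_le_pow_right hq.two_le (Ideal.pow_mem_pow hx q)
      have h10 : x = x ^ q - q * y := by rw [hy]; ring
      rw [h10]
      exact Ideal.sub_mem _ h9 h8
    have h8 : P = P ^ 2 := le_antisymm h7 (Ideal.pow_le_self two_ne_zero)
    have h9 := congrArg absNorm h8
    rw [map_pow, hnm P hP] at h9
    have h10 := hq.two_le
    nlinarith
  · push Not at hall
    obtain ⟨Q, hQ, hne⟩ := hall
    exact ⟨P, Q, fun h1 => hne h1.symm, (hmem P hP).1, (hmem Q hQ).1, (hmem P hP).2.1,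
      (hmem Q hQ).2.1, hnm P hP, hnm Q hQ⟩

end two

section count

variable {K : Type} [Field K] [NumberField K]

theorem ideal_pairs {B : ℕ} {P1 P2 : ℕ → Ideal (𝓞 K)}
    (hP : ∀ q : ℕ, q.Prime → B < q → P1 q ≠ P2 q ∧ (P1 q).IsPrime ∧ (P2 q).IsPrime ∧
      P1 q ≠ ⊥ ∧ P2 q ≠ ⊥ ∧ absNorm (P1 q) = q ∧ absNorm (P2 q) = q) :
    ∃ J : ℕ → ℕ → Ideal (𝓞 K),
      (∀ a b, 0 < a → 0 < b → (∀ q : ℕ, q.Prime → q ∣ a → B < q) →
        (∀ q : ℕ, q.Prime → q ∣ b → B < q) → absNorm (J a b) = a * b) ∧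
      ∀ a b a' b', 0 < a → 0 < b → (∀ q : ℕ, q.Prime → q ∣ a → B < q) →
        (∀ q : ℕ, q.Prime → q ∣ b → B < q) → 0 < a' → 0 < b' →
        (∀ q : ℕ, q.Prime → q ∣ a' → B < q) → (∀ q : ℕ, q.Prime → q ∣ b' → B < q) →
        J a b = J a' b' → a = a' ∧ b = b' := by
  classical
  let F : ℕ → ℕ → Multiset (Ideal (𝓞 K)) := fun a b =>
    ((a.primeFactorsList : Multiset ℕ).map P1) + ((b.primeFactorsList : Multiset ℕ).map P2)
  have hmem : ∀ a : ℕ, (∀ q : ℕ, q.Prime → q ∣ a → B < q) → ∀ q ∈ (a.primeFactorsList : Multiset ℕ),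
      q.Prime ∧ B < q := by
    intro a ha q hq
    have h1 : q ∈ a.primeFactorsList := hq
    exact ⟨Nat.prime_of_mem_primeFactorsList h1,
      ha q (Nat.prime_of_mem_primeFactorsList h1) (Nat.dvd_of_mem_primeFactorsList h1)⟩
  have hprod : ∀ a : ℕ, 0 < a → (a.primeFactorsList : Multiset ℕ).prod = a := by
    intro a ha
    rw [Multiset.prod_coe]
    exact Nat.prod_primeFactorsList ha.ne'
  have hn1 : ∀ a : ℕ, (∀ q : ℕ, q.Prime → q ∣ a → B < q) →
      ((a.primeFactorsList : Multiset ℕ).map P1).map absNorm = (a.primeFactorsList : Multiset ℕ) := by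
    intro a ha
    rw [Multiset.map_map]
    refine (Multiset.map_congr rfl fun q hq => ?_).trans (Multiset.map_id _)
    obtain ⟨h1, h2⟩ := hmem a ha q hq
    exact (hP q h1 h2).2.2.2.2.2.1
  have hn2 : ∀ a : ℕ, (∀ q : ℕ, q.Prime → q ∣ a → B < q) →
      ((a.primeFactorsList : Multiset ℕ).map P2).map absNorm = (a.primeFactorsList : Multiset ℕ) := by
    intro a ha
    rw [Multiset.map_map]
    refine (Multiset.map_congr rfl fun q hq => ?_).trans (Multiset.map_id _)
    obtain ⟨h1, h2⟩ := hmem a ha q hq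
    exact (hP q h1 h2).2.2.2.2.2.2
  have hnorm : ∀ a b, 0 < a → 0 < b → (∀ q : ℕ, q.Prime → q ∣ a → B < q) →
        (∀ q : ℕ, q.Prime → q ∣ b → B < q) → absNorm (F a b).prod = a * b := by
    intro a b ha hb ha' hb'
    rw [map_multiset_prod, Multiset.map_add, hn1 a ha', hn2 b hb', Multiset.prod_add, hprod a ha,
      hprod b hb]
  refine ⟨fun a b => (F a b).prod, hnorm, ?_⟩
  intro a b a' b' ha hb hga hgb ha' hb' hga' hgb' h
  have hprime : ∀ a b, (∀ q : ℕ, q.Prime → q ∣ a → B < q) →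
      (∀ q : ℕ, q.Prime → q ∣ b → B < q) → ∀ P ∈ F a b, Prime P := by
    intro a b ha hb P hPm
    rcases Multiset.mem_add.1 hPm with h1 | h1
    · obtain ⟨q, hq, rfl⟩ := Multiset.mem_map.1 h1
      obtain ⟨h2, h3⟩ := hmem a ha q hq
      exact Ideal.prime_of_isPrime (hP q h2 h3).2.2.2.1 (hP q h2 h3).2.1
    · obtain ⟨q, hq, rfl⟩ := Multiset.mem_map.1 h1
      obtain ⟨h2, h3⟩ := hmem b hb q hq
      exact Ideal.prime_of_isPrime (hP q h2 h3).2.2.2.2.1 (hP q h2 h3).2.2.1
  have hF : F a b = F a' b' := by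
    rw [← normalizedFactors_prod_of_prime (hprime a b hga hgb),
      ← normalizedFactors_prod_of_prime (hprime a' b' hga' hgb')]
    exact congrArg normalizedFactors h
  have hrec : ∀ a b, 0 < a → (∀ q : ℕ, q.Prime → q ∣ a → B < q) →
      (∀ q : ℕ, q.Prime → q ∣ b → B < q) →
      (((F a b).filter fun P => P1 (absNorm P) = P).map absNorm).prod = a := by
    intro a b ha hga hgb
    rw [Multiset.filter_add, Multiset.filter_eq_self.2, Multiset.filter_eq_nil.2, add_zero,
      hn1 a hga, hprod a ha]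
    · intro P hPm
      obtain ⟨q, hq, rfl⟩ := Multiset.mem_map.1 hPm
      obtain ⟨h2, h3⟩ := hmem b hgb q hq
      rw [(hP q h2 h3).2.2.2.2.2.2]
      exact (hP q h2 h3).1
    · intro P hPm
      obtain ⟨q, hq, rfl⟩ := Multiset.mem_map.1 hPm
      obtain ⟨h2, h3⟩ := hmem a hga q hq
      rw [(hP q h2 h3).2.2.2.2.2.1]
  have h1 : a = a' := by
    rw [← hrec a b ha hga hgb, ← hrec a' b' ha' hga' hgb', hF]
  refine ⟨h1, ?_⟩
  have h2 := hnorm a b ha hb hga hgb
  have h3 := hnorm a' b' ha' hb' hga' hgb'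
  rw [hF, h3, h1] at h2
  exact (Nat.eq_of_mul_eq_mul_left ha' h2).symm

/-- a number field in which `x ^ q ≡ x` modulo all large primes `q` is `ℚ` -/
theorem split_all (B : ℕ) (h : ∀ q : ℕ, q.Prime → B < q → ∀ x : 𝓞 K, ∃ y, x ^ q = x + q * y) :
    Module.finrank ℚ K = 1 := by
  classical
  by_contra hne
  have hpos : 0 < Module.finrank ℚ K := Module.finrank_pos
  have hrk : 2 ≤ Module.finrank ℤ (𝓞 K) := by
    rw [NumberField.RingOfIntegers.rank]
    omega
  have hex : ∀ q : ℕ, ∃ P Q : Ideal (𝓞 K), q.Prime → B < q → P ≠ Q ∧ P.IsPrime ∧ Q.IsPrime ∧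
      P ≠ ⊥ ∧ Q ≠ ⊥ ∧ absNorm P = q ∧ absNorm Q = q := by
    intro q
    by_cases hq : q.Prime ∧ B < q
    · obtain ⟨P, Q, h1⟩ := two_primes hq.1 (h q hq.1 hq.2) hrk
      exact ⟨P, Q, fun _ _ => h1⟩
    · exact ⟨⊥, ⊥, fun h1 h2 => absurd ⟨h1, h2⟩ hq⟩
  choose P1 P2 hP using hex
  obtain ⟨J, hJ1, hJ2⟩ := ideal_pairs hP
  let D : ℕ := B.factorial
  have hD : 0 < D := Nat.factorial_pos B
  have hgood : ∀ i q : ℕ, q.Prime → q ∣ 1 + D * i → B < q := by
    intro i q hq hd
    by_contra hle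
    have h1 : q ∣ D := hq.dvd_factorial.2 (not_lt.1 hle)
    have h2 : q ∣ 1 := (Nat.dvd_add_left (h1.mul_right i)).1 hd
    exact hq.one_lt.ne' (Nat.dvd_one.1 h2)
  have hcount : ∀ X M : ℕ, ∑ i ∈ Finset.range M, X / ((1 + D * i) * (1 + D)) ≤
      Nat.card {I : Ideal (𝓞 K) // (absNorm I : ℝ) ≤ (X : ℝ)} := by
    intro X M
    let S : Finset (Σ _ : ℕ, ℕ) := (Finset.range M).sigma fun i =>
      Finset.range (X / ((1 + D * i) * (1 + D)))
    have hS : S.card = ∑ i ∈ Finset.range M, X / ((1 + D * i) * (1 + D)) := by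
      rw [Finset.card_sigma]
      exact Finset.sum_congr rfl fun i _ => Finset.card_range _
    have hfin : Finite {I : Ideal (𝓞 K) // (absNorm I : ℝ) ≤ (X : ℝ)} := by
      have h1 := Ideal.finite_setOfPred_absNorm_le (S := 𝓞 K) X
      refine Set.Finite.to_subtype (s := {I : Ideal (𝓞 K) | (absNorm I : ℝ) ≤ (X : ℝ)})
        (h1.subset ?_)
      intro I hI
      have h2 : (absNorm I : ℝ) ≤ (X : ℝ) := hI
      exact_mod_cast h2
    have hcS : Nat.card S = S.card := by rw [Nat.card_eq_fintype_card, Fintype.card_coe]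
    rw [← hS, ← hcS]
    refine Nat.card_le_card_of_injective (fun p : S => ⟨J (1 + D * p.1.1) (1 + D * p.1.2), ?_⟩) ?_
    · obtain ⟨⟨i, j⟩, hp⟩ := p
      have hj := Finset.mem_range.1 (Finset.mem_sigma.1 hp).2
      rw [hJ1 _ _ (by omega) (by omega) (hgood i) (hgood j)]
      have h1 : (1 + D * i) * (1 + D * j) ≤ X := by
        have h2 : j + 1 ≤ X / ((1 + D * i) * (1 + D)) := hj
        have h3 := (Nat.le_div_iff_mul_le (by positivity)).1 h2
        refine le_trans ?_ h3
        calc (1 + D * i) * (1 + D * j) ≤ (1 + D * i) * ((j + 1) * (1 + D)) := by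
              apply Nat.mul_le_mul_left
              nlinarith
          _ = _ := by ring
      exact_mod_cast h1
    · rintro ⟨⟨i, j⟩, hp⟩ ⟨⟨i', j'⟩, hp'⟩ hpp
      have h1 := congrArg Subtype.val hpp
      obtain ⟨h2, h3⟩ := hJ2 _ _ _ _ (by omega) (by omega) (hgood i) (hgood j) (by omega)
        (by omega) (hgood i') (hgood j') h1
      have h4 : i = i' := Nat.eq_of_mul_eq_mul_left hD (Nat.add_left_cancel h2)
      have h5 : j = j' := Nat.eq_of_mul_eq_mul_left hD (Nat.add_left_cancel h3)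
      subst h4
      subst h5
      rfl
  -- the asymptotics
  have htend := NumberField.Ideal.tendsto_norm_le_div_atTop K
  set L : ℝ := (2 ^ InfinitePlace.nrRealPlaces K * (2 * Real.pi) ^ InfinitePlace.nrComplexPlaces K *
    Units.regulator K * classNumber K) / (Units.torsionOrder K * Real.sqrt |discr K|) with hL
  have hbound : ∀ M : ℕ, ∑ i ∈ Finset.range M, (1 : ℝ) / ((1 + D * i) * (1 + D)) ≤ L := by
    intro M
    have h1 : Tendsto (fun X : ℕ => ∑ i ∈ Finset.range M, (1 : ℝ) / ((1 + D * i) * (1 + D)) -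
        M / (X : ℝ)) atTop (𝓝 (∑ i ∈ Finset.range M, (1 : ℝ) / ((1 + D * i) * (1 + D)) - 0)) :=
      tendsto_const_nhds.sub (tendsto_const_div_atTop_nhds_zero_nat (M : ℝ))
    have h2 := htend.comp tendsto_natCast_atTop_atTop (α := ℕ)
    rw [sub_zero] at h1
    refine le_of_tendsto_of_tendsto h1 h2 ?_
    filter_upwards [eventually_gt_atTop 0] with X hX
    have hX' : (0 : ℝ) < X := by exact_mod_cast hX
    show _ ≤ (Nat.card {I : Ideal (𝓞 K) // (absNorm I : ℝ) ≤ (X : ℝ)} : ℝ) / X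
    rw [le_div_iff₀ hX', sub_mul, div_mul_cancel₀ _ hX'.ne', Finset.sum_mul]
    have h3 : ((∑ i ∈ Finset.range M, X / ((1 + D * i) * (1 + D)) : ℕ) : ℝ) ≤
        (Nat.card {I : Ideal (𝓞 K) // (absNorm I : ℝ) ≤ (X : ℝ)} : ℝ) := by
      exact_mod_cast hcount X M
    refine le_trans ?_ h3
    push_cast
    have h4 : (M : ℝ) = ∑ i ∈ Finset.range M, (1 : ℝ) := by simp
    rw [h4, ← Finset.sum_sub_distrib]
    refine Finset.sum_le_sum fun i _ => ?_
    have h5 := Nat.lt_floor_add_one ((X : ℝ) / (((1 + D * i) * (1 + D) : ℕ) : ℝ))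
    rw [Nat.floor_div_eq_div] at h5
    push_cast at h5
    have h6 : (1 : ℝ) / ((1 + D * i) * (1 + D)) * X = X / ((1 + D * i) * (1 + D)) := by ring
    rw [h6]
    linarith
  have hdiv := Real.tendsto_sum_range_one_div_nat_succ_atTop
  obtain ⟨M, hM⟩ := (hdiv.eventually (eventually_gt_atTop (L * ((1 + D) * (1 + D))))).exists
  have h7 := hbound M
  have h8 : ∑ i ∈ Finset.range M, (1 : ℝ) / (i + 1) ≤
      (∑ i ∈ Finset.range M, (1 : ℝ) / ((1 + D * i) * (1 + D))) * ((1 + D) * (1 + D)) := by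
    rw [Finset.sum_mul]
    refine Finset.sum_le_sum fun i _ => ?_
    have h9 : (0 : ℝ) < 1 + D * i := by positivity
    have h10 : (0 : ℝ) < 1 + D := by positivity
    have h11 : (1 : ℝ) / ((1 + D * i) * (1 + D)) * ((1 + D) * (1 + D)) = (1 + D) / (1 + D * i) := by
      field_simp
    rw [h11, div_le_div_iff₀ (by positivity) h9]
    have h12 : (0 : ℝ) ≤ i := Nat.cast_nonneg i
    have h13 : (0 : ℝ) ≤ D := Nat.cast_nonneg D
    nlinarith
  have h9 : (0 : ℝ) < (1 + D) * (1 + D) := by positivity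
  have h10 := mul_le_mul_of_nonneg_right h7 h9.le
  linarith

end count

end

end Pool.Agent.T9h42.SP
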