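import Pool.Agent.T9h42.SP.Key
import Pool.Agent.T9h42.DD.DescB

/-!
# The traces of a class of `K₁` at the elements of finite order are those of symbols
-/

set_option linter.unusedSectionVars false

namespace Pool.Agent.T9h42.Q

open MonoidAlgebra H970SH H842 Pool.Agent.Y69 Pool.Agent.Y69.StepC Pool.Agent.Y778.NK
  Pool.Agent.T9h42

noncomputable section

variable {F : Type} [Field F] [CharZero F] {G : Type} [Group G]

/-- one cyclic subgroup -/
theorem all_gen (b : K1 (MonoidAlgebra F G)) {J : Type} [Fintype J] (t : J → F) (w : G → J → G)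
    (hw : ∀ g j, w g j * g = g * w g j)
    (ht : ∀ (g : G) (χ : G → ℤ) (hχ : AddOnC g χ), Tr F hχ b = ∑ j, t j * ((χ (w g j) : ℤ) : F))
    {g : G}
    {C : Type} [CommGroup C] [Finite C] (φ : C →* G) (hφ : Function.Injective φ)
    (hr : ∀ y, y ∈ Subgroup.zpowers g ↔ ∃ c, φ c = y) :
    ∃ (M : ℕ) (V : ZK F G), 0 < M ∧ ∀ (c : G) (χ : G → ℤ) (hχ : AddOnC c χ),
      Tr F hχ (btG F G V) = ((M * kk g c : ℕ) : F) * Tr F hχ b := by
  classical
  have := Fintype.ofFinite C
  have hgen := gen_iff φ hφ hr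
  let T : (Cz (rg φ).1 →* Multiplicative ℤ) → C → F := fun χ h =>
    if hh : Subgroup.zpowers h = ⊤ then Tr F (ext0_add φ χ hh) b else 0
  have hT : ∀ χ h (hh : Subgroup.zpowers h = ⊤), T χ h = Tr F (ext0_add φ χ hh) b := fun χ h hh =>
    dif_pos hh
  have hT0 : ∀ χ h, Subgroup.zpowers h ≠ ⊤ → T χ h = 0 := fun χ h hh => dif_neg hh
  have hkey : ∀ χ : Cz (rg φ).1 →* Multiplicative ℤ, ∃ N : ℕ, 0 < N ∧
      ∃ u ∈ Hn (MonoidAlgebra F C), ∀ h, u.coeff h = N * T χ h := fun χ =>
    Pool.Agent.T9h42.SP.key_Hn b φ hφ (ext0 φ χ) (fun h hh => ext0_add φ χ hh) (T χ) (hT χ) (hT0 χ)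
  choose m hm f hfH hf using hkey
  -- the words
  have hwC : ∀ h : C, Subgroup.zpowers h = ⊤ → ∀ j, w (φ h) j ∈ Cz (rg φ).1 := by
    intro h hh j
    apply mem_Cz
    intro c
    have hc : c ∈ Subgroup.zpowers h := by rw [hh]; exact Subgroup.mem_top _
    obtain ⟨n, rfl⟩ := Subgroup.mem_zpowers_iff.1 hc
    rw [map_zpow]
    exact (Commute.zpow_right (show Commute (w (φ h) j) (φ h) from hw _ _) n)
  let W : C × J → Cz (rg φ).1 := fun i =>
    if hh : Subgroup.zpowers i.1 = ⊤ then ⟨w (φ i.1) i.2, hwC i.1 hh i.2⟩ else 1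
  have hW : ∀ h j (hh : Subgroup.zpowers h = ⊤), W (h, j) = ⟨w (φ h) j, hwC h hh j⟩ :=
    fun h j hh => dif_pos hh
  have hTW : ∀ χ h, Subgroup.zpowers h = ⊤ →
      T χ h = ∑ j, t j * ((Multiplicative.toAdd (χ (W (h, j))) : ℤ) : F) := by
    intro χ h hh
    rw [hT χ h hh, ht]
    refine Finset.sum_congr rfl fun j _ => ?_
    congr 2
    unfold ext0
    rw [dif_pos (hwC h hh j), hW h j hh]
  obtain ⟨D, ρ, hD, hρ⟩ := Pool.Agent.T9h42.DD.dual_hom (Finset.univ : Finset (C × J)) W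
  have hdual : ∀ χ h, (D : F) * T χ h =
      ∑ i, T (ρ i) h * ((Multiplicative.toAdd (χ (W i)) : ℤ) : F) := by
    intro χ h
    by_cases hh : Subgroup.zpowers h = ⊤
    · rw [hTW χ h hh, Finset.mul_sum]
      have h1 : ∀ j, (D : F) * (t j * ((Multiplicative.toAdd (χ (W (h, j))) : ℤ) : F)) =
          ∑ i, t j * ((Multiplicative.toAdd (ρ i (W (h, j))) : ℤ) : F) *
            ((Multiplicative.toAdd (χ (W i)) : ℤ) : F) := by
        intro j
        have h2 := hρ χ (h, j) (Finset.mem_univ _)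
        have h3 := congrArg (fun z : ℤ => (z : F)) h2
        simp only [Int.cast_mul, Int.cast_sum] at h3
        rw [mul_left_comm, h3, Finset.mul_sum]
        exact Finset.sum_congr rfl fun i _ => (mul_assoc _ _ _).symm
      rw [Finset.sum_congr rfl fun j _ => h1 j, Finset.sum_comm]
      refine Finset.sum_congr rfl fun i _ => ?_
      rw [hTW (ρ i) h hh, Finset.sum_mul]
    · rw [hT0 χ h hh, mul_zero]
      refine (Finset.sum_eq_zero fun i _ => ?_).symm
      rw [hT0 _ h hh, zero_mul]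
  have hWc : ∀ i c, (W i : G) * φ c = φ c * (W i : G) := by
    intro i c
    exact (Subgroup.mem_centralizer_iff.1 (W i).2 (φ c) ⟨c, rfl⟩).symm
  let m0 : ℕ := ∏ i, m (ρ i)
  have hm0 : 0 < m0 := Finset.prod_pos fun i _ => hm (ρ i)
  let V0 : ZK F G := ∑ i, (m0 / m (ρ i)) • sz F φ (W i : G) (hWc i)
    (kap (ma_tf tfF) ⟨f (ρ i), hfH (ρ i)⟩)
  have hmc : ∀ i, (((m0 / m (ρ i) : ℕ) : F)) * (m (ρ i) : F) = (m0 : F) := by
    intro i
    rw [← Nat.cast_mul, Nat.div_mul_cancel (Finset.dvd_prod_of_mem (fun i => m (ρ i))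
      (Finset.mem_univ i))]
  have hV0 : ∀ (c : G) (χ : G → ℤ) (hχ : AddOnC c χ),
      Tr F hχ (btG F G V0) = (m0 : F) * D * kk g c * Tr F hχ b := by
    intro c χ hχ
    have h1 : Tr F hχ (btG F G V0) = ∑ i, ∑ y : C, (m0 : F) * T (ρ i) y *
        cocf c (fun g => ((χ g : ℤ) : F)) (φ y * (W i : G)⁻¹) (W i) := by
      show Tr F hχ (btG F G (∑ i, _)) = _
      rw [map_sum, map_sum]
      refine Finset.sum_congr rfl fun i _ => ?_
      rw [map_nsmul, map_nsmul, btG_sz, Tr_sz, nsmul_eq_mul, Finset.mul_sum]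
      refine Finset.sum_congr rfl fun y _ => ?_
      have e1 : (m0 : F) * T (ρ i) y = ((m0 / m (ρ i) : ℕ) : F) * (f (ρ i)).coeff y := by
        rw [hf, ← mul_assoc, hmc]
      rw [bb_kap tfF, e1, mul_assoc]
    rw [h1, Finset.sum_comm]
    have h2 : ∀ y : C, ∑ i, (m0 : F) * T (ρ i) y *
        cocf c (fun g => ((χ g : ℤ) : F)) (φ y * (W i : G)⁻¹) (W i) =
        if Subgroup.zpowers (φ y) = Subgroup.zpowers g ∧ IsConj c (φ y) then
          (m0 : F) * D * Tr F hχ b else 0 := by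
      intro y
      by_cases hy1 : Subgroup.zpowers y = ⊤
      · by_cases hc : IsConj c (φ y)
        · rw [if_pos ⟨(hgen y).1 hy1, hc⟩]
          have hs := sel_spec hc
          have hχy : AddOnC (φ y) (fun x => χ ((sel c (φ y))⁻¹ * x * sel c (φ y))) :=
            AddOnC.cj hχ hs
          have h5 := Tr_conj hχ hχy (sel c (φ y)) hs.symm (fun _ => rfl) b
          have hcen : ∀ a : Cz (rg φ).1, (a : G) * φ y = φ y * (a : G) := fun a =>
            (Subgroup.mem_centralizer_iff.1 a.2 (φ y) ⟨y, rfl⟩).symm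
          let χ' : Cz (rg φ).1 →* Multiplicative ℤ :=
            { toFun := fun a => Multiplicative.ofAdd (χ ((sel c (φ y))⁻¹ * (a : G) * sel c (φ y)))
              map_one' := by
                rw [Subgroup.coe_one, Pool.Agent.T9h42.AddOnC.one hχy]
                rfl
              map_mul' := fun a a' => by
                rw [Subgroup.coe_mul]
                exact congrArg Multiplicative.ofAdd (hχy a a' (hcen a) (hcen a')) }
          have h6 : T χ' y = Tr F hχ b := by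
            rw [hTW χ' y hy1, ← h5, ht]
            refine Finset.sum_congr rfl fun j _ => ?_
            rw [hW y j hy1]
            rfl
          have h7 := hdual χ' y
          rw [h6] at h7
          rw [mul_assoc, h7, Finset.mul_sum]
          refine Finset.sum_congr rfl fun i _ => ?_
          rw [cocf_val _ _ _ _ (hWc i y), if_pos hc, mul_assoc]
          rfl
        · rw [if_neg fun h => hc h.2]
          refine Finset.sum_eq_zero fun i _ => ?_
          rw [cocf_val _ _ _ _ (hWc i y), if_neg hc, mul_zero]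
      · rw [if_neg fun h => hy1 ((hgen y).2 h.1)]
        refine Finset.sum_eq_zero fun i _ => ?_
        rw [hT0 _ y hy1, mul_zero, zero_mul]
    rw [Finset.sum_congr rfl fun y _ => h2 y, ← Finset.sum_filter, Finset.sum_const,
      nsmul_eq_mul, kk_card φ hφ hr c]
    ring
  refine ⟨m0 * D.natAbs, D.sign • V0, Nat.mul_pos hm0 (Int.natAbs_pos.2 hD), ?_⟩
  intro c χ hχ
  rw [map_zsmul, map_zsmul, hV0, zsmul_eq_mul]
  have h8 : ((D.sign : ℤ) : F) * D = (D.natAbs : F) := by
    rw [← Int.cast_mul, Int.sign_mul_self_eq_natAbs, Int.cast_natCast]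
  push_cast
  rw [← h8]
  ring

/-- **Theorem.** -/
theorem all_tr (b : K1 (MonoidAlgebra F G)) :
    ∃ (M : ℕ) (V : ZK F G), 0 < M ∧ ∀ (c : G) (χ : G → ℤ) (hχ : AddOnC c χ), 0 < orderOf c →
      Tr F hχ (btG F G V) = M * Tr F hχ b := by
  classical
  obtain ⟨J, _, t, E0, w, hw, ht, hE0⟩ := exists_words b
  let E : Finset G := E0.filter fun g => 0 < orderOf g
  have hEo : ∀ g ∈ E, 0 < orderOf g := fun g hg => (Finset.mem_filter.1 hg).2
  -- the symbols
  have hex : ∀ g ∈ E, ∃ (M : ℕ) (v : ZK F G), 0 < M ∧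
      ∀ (c : G) (χ : G → ℤ) (hχ : AddOnC c χ),
        Tr F hχ (btG F G v) = ((M * kk g c : ℕ) : F) * Tr F hχ b := by
    intro g hg
    have hfin : Finite (Subgroup.zpowers g) := Nat.finite_of_card_ne_zero (by
      rw [Nat.card_zpowers]; exact (hEo g hg).ne')
    let _ : CommGroup (Subgroup.zpowers g) := (inferInstance : IsCyclic _).commGroup
    exact all_gen b t w hw ht (g := g) (Subgroup.zpowers g).subtype
      Subtype.val_injective (fun y => ⟨fun hy => ⟨⟨y, hy⟩, rfl⟩, fun ⟨c, hc⟩ => hc ▸ c.2⟩)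
  choose! M v hM hT using hex
  let K : G → ℕ := fun c => ∑ g ∈ E, kk g c
  have hK : ∀ g ∈ E, 0 < K g := by
    intro g hg
    refine lt_of_lt_of_le (kk_self (hEo g hg)) ?_
    exact Finset.single_le_sum (f := fun g' => kk g' g) (fun _ _ => Nat.zero_le _) hg
  let Q : ℕ := ∏ g ∈ E, M g * K g
  have hQ : 0 < Q := Finset.prod_pos fun g hg => Nat.mul_pos (hM g hg) (hK g hg)
  refine ⟨Q, ∑ g ∈ E, (Q / (M g * K g)) • v g, hQ, ?_⟩
  intro c χ hχ hc
  rw [map_sum, map_sum]
  by_cases h0 : Tr F hχ b = 0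
  · rw [h0, mul_zero]
    refine Finset.sum_eq_zero fun g hg => ?_
    rw [map_nsmul, map_nsmul, hT g hg c χ hχ, h0, mul_zero, smul_zero]
  have hKc : 0 < K c := by
    obtain ⟨g, hg, hcg⟩ := hE0 c χ hχ h0
    have ho : orderOf g = orderOf c := by
      obtain ⟨s, rfl⟩ := isConj_iff.1 hcg
      exact (MulAut.conj s).orderOf_eq c
    have hgE : g ∈ E := Finset.mem_filter.2 ⟨hg, by rw [ho]; exact hc⟩
    have h1 : 0 < kk g c := by
      rw [kk_conj hcg]
      exact kk_self (hEo g hgE)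
    exact lt_of_lt_of_le h1 (Finset.single_le_sum (f := fun g' => kk g' c)
      (fun _ _ => Nat.zero_le _) hgE)
  have h1 : ∀ g ∈ E, Tr F hχ (btG F G ((Q / (M g * K g)) • v g)) =
      (Q : F) * Tr F hχ b * ((kk g c : F) / K c) := by
    intro g hg
    rw [map_nsmul, map_nsmul, hT g hg c χ hχ, nsmul_eq_mul]
    by_cases hk : kk g c = 0
    · rw [hk]
      simp
    have hKg : K g = K c := by
      obtain ⟨y, hy, hcy⟩ := kk_ne hk
      refine Finset.sum_congr rfl fun g' hg' => ?_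
      rw [kk_conj hcy]
      exact (kk_gen (hEo g hg) (hEo g' hg') hy).symm
    have hd : M g * K g ∣ Q := Finset.dvd_prod_of_mem (fun g => M g * K g) hg
    rw [Nat.cast_div hd (by
      have := Nat.mul_pos (hM g hg) (hK g hg)
      exact_mod_cast this.ne'), hKg]
    have h3 : (K c : F) ≠ 0 := by exact_mod_cast hKc.ne'
    have h4 : (M g : F) ≠ 0 := by exact_mod_cast (hM g hg).ne'
    push_cast
    field_simp
  rw [Finset.sum_congr rfl h1, ← Finset.mul_sum, ← Finset.sum_div, ← Nat.cast_sum]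
  have h3 : (K c : F) ≠ 0 := by exact_mod_cast hKc.ne'
  have h5 : (((∑ g ∈ E, kk g c : ℕ) : F) / K c) = 1 := div_self h3
  rw [h5, mul_one]

end

end Pool.Agent.T9h42.Q
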