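import Pool.Agent.T9h42.SP.Rat

/-!
# The traces at the generators of a cyclic group are those of a virtual character
-/

set_option linter.unusedSectionVars false

namespace Pool.Agent.T9h42.SP

open MonoidAlgebra H970SH H842 Pool.Agent.Y69 Pool.Agent.Y69.StepC Pool.Agent.Y778.NK
  Pool.Agent.T9h42 Pool.Agent.T9h42.Q

noncomputable section

theorem sum_pow_frob {R : Type} [CommRing R] {q : ℕ} (hq : q.Prime) {J : Type} (s : Finset J)
    (a : J → R) : ∃ r, (∑ j ∈ s, a j) ^ q = ∑ j ∈ s, a j ^ q + q * r := by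
  classical
  induction s using Finset.induction_on with
  | empty => exact ⟨0, by rw [Finset.sum_empty, Finset.sum_empty, zero_pow hq.ne_zero]; ring⟩
  | insert j s hj ih =>
    obtain ⟨r, hr⟩ := ih
    obtain ⟨r', hr'⟩ := exists_add_pow_prime_eq hq (a j) (∑ j ∈ s, a j)
    refine ⟨r + a j * (∑ j ∈ s, a j) * r', ?_⟩
    rw [Finset.sum_insert hj, Finset.sum_insert hj, hr', hr]
    ring

/-- separation in noetherian domains -/
theorem dom_sep {R : Type} [CommRing R] [IsDomain R] [IsNoetherianRing R] (q : ℕ)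
    (hq : ¬ IsUnit ((q : ℕ) : R)) (x : R) (h : ∀ k : ℕ, ∃ y, x = q ^ k • y) : x = 0 := by
  have h1 : (⨅ i : ℕ, (Ideal.span {((q : ℕ) : R)}) ^ i) = ⊥ := by
    apply Ideal.iInf_pow_eq_bot_of_isDomain
    rwa [Ne, Ideal.span_singleton_eq_top]
  have h2 : x ∈ (⨅ i : ℕ, (Ideal.span {((q : ℕ) : R)}) ^ i) := by
    rw [Ideal.mem_iInf]
    intro i
    obtain ⟨y, hy⟩ := h i
    rw [Ideal.span_singleton_pow, Ideal.mem_span_singleton]
    exact ⟨y, by rw [hy, nsmul_eq_mul, Nat.cast_pow]⟩
  rw [h1] at h2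
  exact h2

section key

variable {F : Type} [Field F] [CharZero F] {G : Type} [Group G]

theorem key_Hn (b : K1 (MonoidAlgebra F G)) {C : Type} [CommGroup C] [Fintype C] (φ : C →* G)
    (hφ : Function.Injective φ) (χ : G → ℤ)
    (hχ : ∀ h : C, Subgroup.zpowers h = ⊤ → AddOnC (φ h) χ) (T : C → F)
    (hT : ∀ h (hh : Subgroup.zpowers h = ⊤), T h = Tr F (hχ h hh) b)
    (hT0 : ∀ h, Subgroup.zpowers h ≠ ⊤ → T h = 0) :
    ∃ N : ℕ, 0 < N ∧ ∃ u ∈ Hn (MonoidAlgebra F C), ∀ h, u.coeff h = N * T h := by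
  classical
  obtain ⟨n, A, rfl⟩ := K1_exists b
  let L := AlgebraicClosure F
  have : CharZero L := charZero_of_injective_algebraMap (algebraMap F L).injective
  let ι : F →+* L := algebraMap F L
  let cs : MonoidAlgebra F G → Finset L := fun X => X.coeff.support.image fun g => ι (X.coeff g)
  let s1 : Finset L := Finset.univ.biUnion fun d : Fin n × Fin n => cs (A.val d.1 d.2)
  let s2 : Finset L := Finset.univ.biUnion fun d : Fin n × Fin n => cs ((A⁻¹).val d.1 d.2)
  let s3 : Finset L := (Polynomial.nthRoots (Fintype.card C) (1 : L)).toFinset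
  let s : Finset L := s1 ∪ s2 ∪ s3
  let R := Algebra.adjoin ℤ (s : Set L)
  let θ : R →+* L := R.val.toRingHom
  have hθ : Function.Injective θ := Subtype.val_injective
  have hft : Algebra.FiniteType ℤ R := (Subalgebra.fg_iff_finiteType _).1 ⟨s, rfl⟩
  have hnoeth : IsNoetherianRing R := Algebra.FiniteType.isNoetherianRing ℤ R
  have hcs : ∀ (X : MonoidAlgebra F G), (∀ y ∈ cs X, y ∈ s) → ∀ g, ∃ r : R, θ r = ι (X.coeff g) := by
    intro X hX g
    by_cases hg : X.coeff g = 0
    · exact ⟨0, by rw [hg, map_zero, map_zero]⟩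
    · have h1 : ι (X.coeff g) ∈ cs X := Finset.mem_image.2 ⟨g, Finsupp.mem_support_iff.2 hg, rfl⟩
      exact ⟨⟨ι (X.coeff g), Algebra.subset_adjoin (hX _ h1)⟩, rfl⟩
  obtain ⟨x, hx⟩ : ∃ x : K1 (MonoidAlgebra R G),
      K1map (mapRingHom G θ) x = K1map (mapRingHom G ι) (cl A) := by
    rw [K1map_cl]
    apply lift_K1 θ hθ
    · intro i j g
      obtain ⟨r, hr⟩ := hcs (A.val i j) (fun y hy => Finset.mem_union_left _
        (Finset.mem_union_left _ (Finset.mem_biUnion.2 ⟨(i, j), Finset.mem_univ _, hy⟩))) g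
      exact ⟨r, by rw [hr]; exact (mapR_coeff ι _ g).symm⟩
    · intro i j g
      obtain ⟨r, hr⟩ := hcs ((A⁻¹).val i j) (fun y hy => Finset.mem_union_left _
        (Finset.mem_union_right _ (Finset.mem_biUnion.2 ⟨(i, j), Finset.mem_univ _, hy⟩))) g
      exact ⟨r, by rw [hr]; exact (mapR_coeff ι _ g).symm⟩
  let T' : C → R := fun h => if hh : Subgroup.zpowers h = ⊤ then Tr R (hχ h hh) x else 0
  have hT' : ∀ h (hh : Subgroup.zpowers h = ⊤), T' h = Tr R (hχ h hh) x := fun h hh => dif_pos hh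
  have hT'0 : ∀ h, Subgroup.zpowers h ≠ ⊤ → T' h = 0 := fun h hh => dif_neg hh
  have hTT : ∀ h, θ (T' h) = ι (T h) := by
    intro h
    by_cases hh : Subgroup.zpowers h = ⊤
    · rw [hT' h hh, hT h hh, ← Tr_map, ← Tr_map, hx]
    · rw [hT'0 h hh, hT0 h hh, map_zero, map_zero]
  have htf : ∀ (n : ℕ) (x : R), 0 < n → n • x = 0 → x = 0 := by
    intro n x hn h
    apply hθ
    have h1 := congrArg θ h
    rw [map_nsmul, map_zero, nsmul_eq_mul] at h1
    rw [map_zero]
    exact (mul_eq_zero.1 h1).resolve_left (by exact_mod_cast hn.ne')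
  -- the congruence
  have hcong : ∀ q : ℕ, q.Prime → Fintype.card C < q → ∀ h : C, ∃ r, T' (h ^ q) = T' h ^ q + q * r := by
    intro q hq hqC h
    have hcop : (Nat.card C).Coprime q := by
      rw [Nat.card_eq_fintype_card]
      exact ((hq.coprime_iff_not_dvd).2 fun hd =>
        absurd (Nat.le_of_dvd Fintype.card_pos hd) (by omega)).symm
    have hz : Subgroup.zpowers (h ^ q) = Subgroup.zpowers h := by
      apply le_antisymm
      · exact Subgroup.zpowers_le.2 (Subgroup.pow_mem _ (Subgroup.mem_zpowers h) q)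
      · have hco : q.Coprime (orderOf h) :=
          Nat.Coprime.coprime_dvd_right (orderOf_dvd_natCard h) hcop.symm
        obtain ⟨k, hk⟩ := exists_pow_eq_self_of_coprime hco
        apply Subgroup.zpowers_le.2
        have h1 : (h ^ q) ^ k ∈ Subgroup.zpowers (h ^ q) :=
          Subgroup.pow_mem _ (Subgroup.mem_zpowers (h ^ q)) k
        rwa [hk] at h1
    by_cases hh : Subgroup.zpowers h = ⊤
    · have hh' : Subgroup.zpowers (h ^ q) = ⊤ := by rw [hz, hh]
      rw [hT' h hh, hT' _ hh']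
      have ho : orderOf (φ h) = orderOf h := orderOf_injective φ hφ h
      refine tr_frob htf hq (fun hu x hx => dom_sep q hu x hx) (c := φ h) (g := φ (h ^ q))
        (map_pow φ h q).symm ?_ ?_ (hχ _ hh') (hχ h hh) x
      · rw [ho]; exact orderOf_pos h
      · rw [ho]
        intro hd
        exact absurd (Nat.le_of_dvd Fintype.card_pos (hd.trans (orderOf_dvd_card))) (by omega)
    · rw [hT'0 h hh, hT'0 _ (by rw [hz]; exact hh)]
      exact ⟨0, by rw [zero_pow hq.ne_zero]; ring⟩
  have hrat : ∀ ψ : C →* Lˣ, ∃ a : ℚ, algebraMap ℚ L a = ∑ h, ι (T h) * ((ψ h : Lˣ) : L) := by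
    intro ψ
    have hmem : ∀ h : C, ((ψ h : Lˣ) : L) ∈ R := by
      intro h
      apply Algebra.subset_adjoin
      apply Finset.mem_union_right
      rw [Multiset.mem_toFinset, Polynomial.mem_nthRoots Fintype.card_pos]
      rw [← Units.val_pow_eq_pow_val, ← map_pow, pow_card_eq_one, map_one, Units.val_one]
    let P : C → R := fun h => ⟨((ψ h : Lˣ) : L), hmem h⟩
    let t : R := ∑ h, T' h * P h
    have ht : ((t : R) : L) = ∑ h, ι (T h) * ((ψ h : Lˣ) : L) := by
      show θ (∑ h, T' h * P h) = _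
      rw [map_sum]
      refine Finset.sum_congr rfl fun h _ => ?_
      rw [map_mul, hTT]
      rfl
    rw [← ht]
    refine rat_of_frob s (t : L) t.2 (Fintype.card C) ?_
    intro q hq hqC
    have hcop : (Nat.card C).Coprime q := by
      rw [Nat.card_eq_fintype_card]
      exact ((hq.coprime_iff_not_dvd).2 fun hd =>
        absurd (Nat.le_of_dvd Fintype.card_pos hd) (by omega)).symm
    obtain ⟨r0, hr0⟩ := sum_pow_frob hq Finset.univ fun h => T' h * P h
    choose r hr using hcong q hq hqC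
    have hP : ∀ h, P h ^ q = P (h ^ q) := by
      intro h
      apply Subtype.ext
      show ((ψ h : Lˣ) : L) ^ q = ((ψ (h ^ q) : Lˣ) : L)
      rw [map_pow, Units.val_pow_eq_pow_val]
    have hbij : ∑ h, T' (h ^ q) * P (h ^ q) = t :=
      Fintype.sum_equiv (powCoprime hcop) _ _ fun h => rfl
    have h1 : t ^ q = t + q * (r0 - ∑ h, r h * P (h ^ q)) := by
      show (∑ h, T' h * P h) ^ q = _
      rw [hr0, ← hbij]
      have h2 : ∀ h, (T' h * P h) ^ q = T' (h ^ q) * P (h ^ q) - q * (r h * P (h ^ q)) := by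
        intro h
        rw [mul_pow, hP, hr h]
        ring
      rw [Finset.sum_congr rfl fun h _ => h2 h, Finset.sum_sub_distrib, ← Finset.mul_sum]
      ring
    refine ⟨_, (r0 - ∑ h, r h * P (h ^ q)).2, ?_⟩
    have h2 := congrArg (fun z : R => (z : L)) h1
    simpa using h2
  obtain ⟨N, hN, u, hu, huc⟩ := four (fun h => ι (T h)) hrat
  refine ⟨N, hN, ∑ h, single h ((N : F) * T h), ?_, ?_⟩
  · apply Pool.Agent.T9h42.DD.Hn_desc (mapRingHom C ι)
    · exact MonoidAlgebra.map_injective (ι : F →+ L) ι.injective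
    have h1 : mapRingHom C ι (∑ h, single h ((N : F) * T h)) = u := by
      apply coeff_injective
      ext h
      rw [huc, mapR_coeff, coeff_sum, Finsupp.finsetSum_apply, Finset.sum_eq_single h]
      · rw [coeff_single, Finsupp.single_eq_same, map_mul, map_natCast]
      · intro h' _ hne
        rw [coeff_single, Finsupp.single_eq_of_ne (Ne.symm hne)]
      · intro h1
        exact absurd (Finset.mem_univ h) h1
    rw [h1]
    exact hu
  · intro h
    rw [coeff_sum, Finsupp.finsetSum_apply, Finset.sum_eq_single h]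
    · rw [coeff_single, Finsupp.single_eq_same]
    · intro h' _ hne
      rw [coeff_single, Finsupp.single_eq_of_ne (Ne.symm hne)]
    · intro h1
      exact absurd (Finset.mem_univ h) h1

end key

end

end Pool.Agent.T9h42.SP
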