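import Pool.Agent.T9h42.SP.StmR
import Pool.Agent.T9h42.SP.GenS
import Pool.Agent.T9h42.GZ.OneQ

/-!
# Membership in the subgroups given by traces
-/

set_option linter.unusedSectionVars false

namespace Pool.Agent.T9h42.KS

open MonoidAlgebra H970SH H842 Pool.Agent.Y69 Pool.Agent.Y69.StepC Pool.Agent.Y778.NK
  Pool.Agent.T9h42 Pool.Agent.T9h42.Q
open Pool.Agent.Y69.FJK (GK1)
open Pool.Agent.T9h42.GZ (IsCocycle dennis)

noncomputable section

variable {R G : Type} [CommRing R] [Group G]

open Classical in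
/-- a cocycle supported on one conjugacy class is cohomologous to the one of a homomorphism -/
theorem coc_class (f : G → G → ℤ) (hf : IsCocycle f) (c : G)
    (hc : ∀ x y, ¬ IsConj c (x * y) → f x y = 0) (x y : G) :
    f x y = cocf c (fun z => ar f z c) x y +
      ((if IsConj c (y * x) then ar f (sel c (y * x)) c else 0) -
        (if IsConj c (x * y) then ar f (sel c (x * y)) c else 0)) := by
  by_cases h : IsConj c (x * y)
  · have h' : IsConj c (y * x) := h.trans (conj_swap x y)
    unfold cocf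
    rw [if_pos h, if_pos h', if_pos h]
    have s1 := sel_spec h
    have s2 := sel_spec h'
    have e0 : f x y = ar f y (x * y) := by
      unfold ar
      rw [mul_inv_cancel_right]
    have e1 : y * (x * y) * y⁻¹ = y * x := by group
    -- the composite
    have h1 := ar_mul f hf (sel c (x * y)) y c
    rw [s1] at h1
    have h2 := ar_mul f hf ((sel c (y * x))⁻¹ * y * sel c (x * y)) (sel c (y * x)) c
    have e2 : sel c (y * x) * ((sel c (y * x))⁻¹ * y * sel c (x * y)) = y * sel c (x * y) := by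
      group
    have e3 : ((sel c (y * x))⁻¹ * y * sel c (x * y)) * c *
        ((sel c (y * x))⁻¹ * y * sel c (x * y))⁻¹ = c := by
      calc ((sel c (y * x))⁻¹ * y * sel c (x * y)) * c *
          ((sel c (y * x))⁻¹ * y * sel c (x * y))⁻¹ =
          (sel c (y * x))⁻¹ * (y * (sel c (x * y) * c * (sel c (x * y))⁻¹) * y⁻¹) *
            sel c (y * x) := by group
        _ = (sel c (y * x))⁻¹ * (y * x) * sel c (y * x) := by rw [s1, e1]
        _ = (sel c (y * x))⁻¹ * (sel c (y * x) * c * (sel c (y * x))⁻¹) * sel c (y * x) := by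
          rw [s2]
        _ = c := by group
    rw [e2, e3] at h2
    rw [e0]
    rw [h1] at h2
    show _ = ar f ((sel c (y * x))⁻¹ * y * sel c (x * y)) c + _
    omega
  · have h' : ¬ IsConj c (y * x) := fun h2 => h (h2.trans (conj_swap y x))
    unfold cocf
    rw [hc x y h, if_neg h, if_neg h', if_neg h]
    ring

theorem ar_addOn (f : G → G → ℤ) (hf : IsCocycle f) (c : G) :
    AddOnC c (fun z => ar f z c) := by
  intro a b ha hb
  show ar f (a * b) c = ar f a c + ar f b c
  have e : b * c * b⁻¹ = c := by rw [hb]; group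
  rw [ar_mul f hf b a c, e, add_comm]

variable {n : ℕ} (A : (Matrix (Fin n) (Fin n) (MonoidAlgebra R G))ˣ)

/-- the value of a cocycle supported on one conjugacy class -/
theorem prg_class (f : G → G → ℤ) (hf : IsCocycle f) (c : G)
    (hc : ∀ x y, ¬ IsConj c (x * y) → f x y = 0) :
    prg (fun x y => ((f x y : ℤ) : R)) (A⁻¹).val A.val = Tr R (ar_addOn f hf c) (cl A) := by
  classical
  rw [Tr_cl]
  let S := spt A.val ∪ spt (A⁻¹).val
  have hS1 : spt A.val ⊆ S := Finset.subset_union_left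
  have hS2 : spt (A⁻¹).val ⊆ S := Finset.subset_union_right
  rw [prg_eq _ (A⁻¹).val A.val S hS1 hS2, prg_eq _ (A⁻¹).val A.val S hS1 hS2]
  let H : G → R := fun u => (((if IsConj c u then ar f (sel c u) c else 0 : ℤ)) : R)
  have h1 := sum_src1 (inv1_of A.val (A⁻¹).val A.inv_mul _ hS1 hS2) H
  have h2 := sum_tgt1 (inv1_of (A⁻¹).val A.val A.mul_inv _ hS2 hS1) H
  have h3 : ∀ d : S × S, (cf (A⁻¹).val ↑d.1 * cf A.val ↑d.2).trace •
      ((f ↑d.1 ↑d.2 : ℤ) : R) = (cf (A⁻¹).val ↑d.1 * cf A.val ↑d.2).trace •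
      ((cocf c (fun z => ar f z c) ↑d.1 ↑d.2 : ℤ) : R) +
        ((cf (A⁻¹).val ↑d.1 * cf A.val ↑d.2).trace • H (↑d.2 * ↑d.1) -
        (cf (A⁻¹).val ↑d.1 * cf A.val ↑d.2).trace • H (↑d.1 * ↑d.2)) := by
    intro d
    rw [coc_class f hf c hc, Int.cast_add, Int.cast_sub, smul_add, smul_sub]
  rw [Finset.sum_congr rfl fun d _ => h3 d, Finset.sum_add_distrib, Finset.sum_sub_distrib, h1, h2,
    sub_self, add_zero]

/-- the traces at the conjugacy classes determine the values of all cocycles -/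
theorem noTrace_of (h : ∀ (c : G) (χ : G → ℤ) (hχ : AddOnC c χ), 0 < orderOf c →
    Tr R hχ (cl A) = 0) : NoTrace A := by
  classical
  intro f hf hfin
  show prg (fun x y => ((f x y : ℤ) : R)) (A⁻¹).val A.val = 0
  let S := spt A.val ∪ spt (A⁻¹).val
  have hS1 : spt A.val ⊆ S := Finset.subset_union_left
  have hS2 : spt (A⁻¹).val ⊆ S := Finset.subset_union_right
  let K : Finset (ConjClasses G) := Finset.univ.image fun d : S × S =>
    ConjClasses.mk ((d.1 : G) * d.2)
  let fk : ConjClasses G → G → G → ℤ := fun κ x y =>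
    if ConjClasses.mk (x * y) = κ then f x y else 0
  have hsw : ∀ x y : G, ConjClasses.mk (x * y) = ConjClasses.mk (y * x) := fun x y =>
    ConjClasses.mk_eq_mk_iff_isConj.2 (conj_swap x y)
  have hfk : ∀ κ, IsCocycle (fk κ) := fun κ x y z =>
    cut_coc f hf (fun g => ConjClasses.mk g = κ) (fun x y => by rw [hsw]) x y z
  have hz : ∀ κ, prg (fun x y => ((fk κ x y : ℤ) : R)) (A⁻¹).val A.val = 0 := by
    intro κ
    obtain ⟨c, rfl⟩ := ConjClasses.exists_rep κ
    have hc : ∀ x y, ¬ IsConj c (x * y) → fk (ConjClasses.mk c) x y = 0 := by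
      intro x y hxy
      show (if ConjClasses.mk (x * y) = ConjClasses.mk c then f x y else 0) = 0
      rw [if_neg]
      intro h1
      exact hxy (ConjClasses.mk_eq_mk_iff_isConj.1 h1).symm
    by_cases ho : 0 < orderOf c
    · rw [prg_class A (fk (ConjClasses.mk c)) (hfk _) c hc]
      exact h c _ _ ho
    · have h0 : ∀ x y, fk (ConjClasses.mk c) x y = 0 := by
        intro x y
        by_cases hxy : IsConj c (x * y)
        · show (if ConjClasses.mk (x * y) = ConjClasses.mk c then f x y else 0) = 0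
          rw [if_pos (ConjClasses.mk_eq_mk_iff_isConj.2 hxy.symm)]
          apply hfin
          intro h1
          apply ho
          obtain ⟨t, ht⟩ := isConj_iff.1 hxy
          have h2 : orderOf (t * c * t⁻¹) = orderOf c := (MulAut.conj t).orderOf_eq c
          rw [← h2, ht]
          exact orderOf_pos_iff.2 h1
        · exact hc x y hxy
      rw [prg_eq _ (A⁻¹).val A.val S hS1 hS2]
      refine Finset.sum_eq_zero fun d _ => ?_
      rw [h0, Int.cast_zero, smul_zero]
  rw [prg_eq _ (A⁻¹).val A.val S hS1 hS2]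
  have h1 : ∀ d : S × S, (cf (A⁻¹).val ↑d.1 * cf A.val ↑d.2).trace • ((f ↑d.1 ↑d.2 : ℤ) : R) =
      ∑ κ ∈ K, (cf (A⁻¹).val ↑d.1 * cf A.val ↑d.2).trace • ((fk κ ↑d.1 ↑d.2 : ℤ) : R) := by
    intro d
    rw [Finset.sum_eq_single (ConjClasses.mk ((d.1 : G) * d.2))]
    · show _ = _ • (((if ConjClasses.mk ((d.1 : G) * d.2) = ConjClasses.mk ((d.1 : G) * d.2) then
        f ↑d.1 ↑d.2 else 0 : ℤ)) : R)
      rw [if_pos rfl]
    · intro κ _ hκ
      show _ • (((if ConjClasses.mk ((d.1 : G) * d.2) = κ then f ↑d.1 ↑d.2 else 0 : ℤ)) : R) = 0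
      rw [if_neg (Ne.symm hκ), Int.cast_zero, smul_zero]
    · intro h1
      exact absurd (Finset.mem_image_of_mem _ (Finset.mem_univ d)) h1
  rw [Finset.sum_congr rfl fun d _ => h1 d, Finset.sum_comm]
  refine Finset.sum_eq_zero fun κ _ => ?_
  rw [← prg_eq (fun x y => ((fk κ x y : ℤ) : R)) (A⁻¹).val A.val S hS1 hS2]
  exact hz κ

/-- **Membership.** -/
theorem mem_Tz1 (b : K1 (MonoidAlgebra R G)) : (b : GK1 R G) ∈ Tz1 R G ↔
    ∀ (c : G) (χ : G → ℤ) (hχ : AddOnC c χ), 0 < orderOf c → Tr R hχ b = 0 := by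
  constructor
  · intro hb c χ hχ hc
    have key : Tz1 R G ≤ ((Tr R hχ).ker : AddSubgroup (K1 (MonoidAlgebra R G))) := by
      unfold Tz1
      refine (AddSubgroup.closure_le _).2 ?_
      rintro _ ⟨n, A, hA, rfl⟩
      show Tr R hχ (K1.mk A) = 0
      have h1 : K1.mk A = cl A := (cl_fin A).symm
      rw [h1, Tr_cl]
      exact hA (cocf c χ) (cocf_coc hχ) (fun x y h => cocf_supp hc x y fun h2 =>
        h (orderOf_pos_iff.1 h2))
    exact key hb
  · intro h
    obtain ⟨n, A, rfl⟩ := K1_exists b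
    refine AddSubgroup.subset_closure ⟨n, A, noTrace_of A h, ?_⟩
    exact cl_fin A

end

end Pool.Agent.T9h42.KS
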