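import Pool.Agent.T9h42.SP.Count

/-!
# Elements of number fields which are fixed by the Frobenius modulo almost all primes
-/

set_option linter.unusedSectionVars false

namespace Pool.Agent.T9h42.SP

open NumberField

noncomputable section

section away

variable {K : Type} [Field K] [CharZero K]

/-- integral away from `N` -/
def Aw (N : ℕ) (x : K) : Prop := ∃ k : ℕ, IsIntegral ℤ ((N : K) ^ k * x)

theorem Aw.of_int {N : ℕ} {x : K} (h : IsIntegral ℤ x) : Aw N x :=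
  ⟨0, by rwa [pow_zero, one_mul]⟩

theorem int_nat (n : ℕ) : IsIntegral ℤ (n : K) := by
  have := isIntegral_algebraMap (R := ℤ) (A := K) (x := (n : ℤ))
  simpa using this

theorem Aw.mono {N M : ℕ} {x : K} (h : Aw N x) (hNM : N ∣ M) : Aw M x := by
  obtain ⟨k, hk⟩ := h
  obtain ⟨c, rfl⟩ := hNM
  refine ⟨k, ?_⟩
  have e : ((N * c : ℕ) : K) ^ k * x = (c : K) ^ k * ((N : K) ^ k * x) := by
    rw [Nat.cast_mul, mul_pow]; ring
  rw [e]
  exact ((int_nat c).pow k).mul hk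

theorem Aw.add {N : ℕ} {x y : K} (hx : Aw N x) (hy : Aw N y) : Aw N (x + y) := by
  obtain ⟨k, hk⟩ := hx
  obtain ⟨l, hl⟩ := hy
  refine ⟨k + l, ?_⟩
  have e : (N : K) ^ (k + l) * (x + y) = (N : K) ^ l * ((N : K) ^ k * x) +
      (N : K) ^ k * ((N : K) ^ l * y) := by rw [pow_add]; ring
  rw [e]
  exact (((int_nat N).pow l).mul hk).add (((int_nat N).pow k).mul hl)

theorem Aw.mul {N : ℕ} {x y : K} (hx : Aw N x) (hy : Aw N y) : Aw N (x * y) := by
  obtain ⟨k, hk⟩ := hx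
  obtain ⟨l, hl⟩ := hy
  refine ⟨k + l, ?_⟩
  have e : (N : K) ^ (k + l) * (x * y) = ((N : K) ^ k * x) * ((N : K) ^ l * y) := by
    rw [pow_add]; ring
  rw [e]
  exact hk.mul hl

theorem Aw.neg {N : ℕ} {x : K} (hx : Aw N x) : Aw N (-x) := by
  obtain ⟨k, hk⟩ := hx
  exact ⟨k, by rw [mul_neg]; exact hk.neg⟩

theorem Aw.sub {N : ℕ} {x y : K} (hx : Aw N x) (hy : Aw N y) : Aw N (x - y) := by
  rw [sub_eq_add_neg]; exact hx.add hy.neg

theorem Aw.pow {N : ℕ} {x : K} (hx : Aw N x) (n : ℕ) : Aw N (x ^ n) := by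
  induction n with
  | zero => rw [pow_zero]; exact Aw.of_int isIntegral_one
  | succ n ih => rw [pow_succ]; exact ih.mul hx

theorem Aw.nat {N : ℕ} (n : ℕ) : Aw N (n : K) := Aw.of_int (int_nat n)

/-- algebraic numbers are integral away from some number -/
theorem exists_aw (x : K) (hx : IsAlgebraic ℚ x) : ∃ N : ℕ, 0 < N ∧ Aw N x := by
  have h1 : IsAlgebraic ℤ x := (IsFractionRing.isAlgebraic_iff ℤ ℚ K).2 hx
  obtain ⟨y, hy0, hy⟩ := h1.exists_integral_multiple
  refine ⟨y.natAbs, Int.natAbs_pos.2 hy0, 1, ?_⟩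
  rw [pow_one]
  have h2 : IsIntegral ℤ ((y : K) * x) := by
    have : y • x = (y : K) * x := by rw [zsmul_eq_mul]
    rw [← this]; exact hy
  rcases Int.natAbs_eq y with h3 | h3
  · have h4 : ((y.natAbs : ℕ) : K) = (y : K) := by
      conv_rhs => rw [h3]
      rw [Int.cast_natCast]
    rw [h4]; exact h2
  · have h4 : ((y.natAbs : ℕ) : K) = -(y : K) := by
      conv_rhs => rw [h3]
      rw [Int.cast_neg, Int.cast_natCast, neg_neg]
    rw [h4, neg_mul]; exact h2.neg

/-- fixed by the Frobenius modulo `q` -/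
def Fx (N q : ℕ) (x : K) : Prop := Aw N x ∧ ∃ r, Aw N r ∧ x ^ q = x + q * r

theorem Fx.add {N q : ℕ} (hq : q.Prime) {x y : K} (hx : Fx N q x) (hy : Fx N q y) :
    Fx N q (x + y) := by
  obtain ⟨hx0, r, hr, hx⟩ := hx
  obtain ⟨hy0, s, hs, hy⟩ := hy
  have key : ∃ u, Aw N u ∧ (x + y) ^ q = x ^ q + y ^ q + q * u := by
    refine ⟨x * y * ∑ k ∈ Finset.Ioo 0 q, x ^ (k - 1) * y ^ (q - k - 1) *
      ((q.choose k / q : ℕ) : K), ?_, ?_⟩
    · refine (hx0.mul hy0).mul ?_
      refine Finset.sum_induction _ (Aw N) (fun a b => Aw.add) (Aw.of_int isIntegral_zero) ?_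
      intro k _
      exact ((hx0.pow _).mul (hy0.pow _)).mul (Aw.nat _)
    · have := add_pow_prime_eq hq x y
      rw [this]
      ring
  obtain ⟨u, hu, h⟩ := key
  refine ⟨hx0.add hy0, r + s + u, (hr.add hs).add hu, ?_⟩
  rw [h, hx, hy]; ring

theorem Fx.mul {N q : ℕ} {x y : K} (hx : Fx N q x) (hy : Fx N q y) :
    Fx N q (x * y) := by
  obtain ⟨hx0, r, hr, hx⟩ := hx
  obtain ⟨hy0, s, hs, hy⟩ := hy
  refine ⟨hx0.mul hy0, x * s + r * y + q * (r * s),
    ((hx0.mul hs).add (hr.mul hy0)).add ((Aw.nat q).mul (hr.mul hs)), ?_⟩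
  rw [mul_pow, hx, hy]; ring

theorem Fx.neg {N q : ℕ} (hq : q.Prime) (hq2 : 2 < q) {x : K} (hx : Fx N q x) :
    Fx N q (-x) := by
  obtain ⟨hx0, r, hr, hx⟩ := hx
  refine ⟨hx0.neg, -r, hr.neg, ?_⟩
  rw [Odd.neg_pow (hq.odd_of_ne_two (by omega)), hx]; ring

theorem Fx.one {N q : ℕ} : Fx N q (1 : K) :=
  ⟨Aw.of_int isIntegral_one, 0, Aw.of_int isIntegral_zero, by rw [one_pow]; ring⟩

theorem Fx.zero {N q : ℕ} (hq : q.Prime) : Fx N q (0 : K) :=
  ⟨Aw.of_int isIntegral_zero, 0, Aw.of_int isIntegral_zero, by rw [zero_pow hq.ne_zero]; ring⟩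

theorem Fx.nat {N q : ℕ} (hq : q.Prime) (n : ℕ) : Fx N q (n : K) := by
  induction n with
  | zero => rw [Nat.cast_zero]; exact Fx.zero hq
  | succ n ih => rw [Nat.cast_succ]; exact ih.add hq Fx.one

theorem Fx.int {N q : ℕ} (hq : q.Prime) (hq2 : 2 < q) (n : ℤ) : Fx N q (n : K) := by
  rcases Int.natAbs_eq n with h | h
  · rw [h, Int.cast_natCast]; exact Fx.nat hq _
  · rw [h, Int.cast_neg, Int.cast_natCast]; exact (Fx.nat hq _).neg hq hq2

theorem Fx.adj {N q : ℕ} (hq : q.Prime) (hq2 : 2 < q) {τ : K} (hτ : Fx N q τ) {x : K}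
    (hx : x ∈ Algebra.adjoin ℤ {τ}) : Fx N q x := by
  induction hx using Algebra.adjoin_induction with
  | mem x hx => rw [Set.mem_singleton_iff.1 hx]; exact hτ
  | algebraMap r =>
    have : algebraMap ℤ K r = (r : K) := by simp
    rw [this]; exact Fx.int hq hq2 r
  | add x y _ _ hx hy => exact hx.add hq hy
  | mul x y _ _ hx hy => exact hx.mul hy

/-- division -/
theorem Fx.div {N q M : ℕ} (hq : q.Prime) (hq2 : 2 < q) (hqN : ¬ q ∣ N) (hqM : ¬ q ∣ M)
    {x : K} (hx : IsIntegral ℤ x) (h : Fx N q ((M : K) * x)) :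
    ∃ y : K, IsIntegral ℤ y ∧ x ^ q = x + q * y := by
  have hq0 : (q : K) ≠ 0 := by exact_mod_cast hq.ne_zero
  obtain ⟨_, r, hr, h1⟩ := h
  obtain ⟨_, m, hm, h2⟩ := (Fx.nat (K := K) (N := N) hq M)
  let z : K := (x ^ q - x) / q
  have hz : (q : K) * z = x ^ q - x := mul_div_cancel₀ _ hq0
  have hqz : IsIntegral ℤ ((q : K) * z) := by rw [hz]; exact (hx.pow q).sub hx
  have hMz : (M : K) * z = r - m * x ^ q := by
    apply mul_left_cancel₀ hq0
    have : (q : K) * (M * z) = M * (q * z) := by ring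
    rw [this, hz]
    rw [mul_pow, h2] at h1
    linear_combination h1
  have hA : Aw N ((M : K) * z) := by
    rw [hMz]
    exact hr.sub (hm.mul (Aw.of_int (hx.pow q)))
  obtain ⟨k, hk⟩ := hA
  have hcop : Nat.Coprime (N ^ k * M) q :=
    Nat.Coprime.mul_left (Nat.Coprime.pow_left k ((hq.coprime_iff_not_dvd.2 hqN).symm))
      (hq.coprime_iff_not_dvd.2 hqM).symm
  have hbez := Nat.isCoprime_iff_coprime.2 hcop
  obtain ⟨a, b, hab⟩ := hbez
  refine ⟨z, ?_, by rw [hz]; ring⟩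
  have h3 : z = (a : K) * ((N : K) ^ k * ((M : K) * z)) + (b : K) * ((q : K) * z) := by
    have h4 := congrArg (fun t : ℤ => (t : K)) hab
    simp only [Int.cast_add, Int.cast_mul, Int.cast_natCast, Int.cast_one, Nat.cast_mul,
      Nat.cast_pow, Int.cast_pow] at h4
    linear_combination (-z) * h4
  have hint : ∀ n : ℤ, IsIntegral ℤ (n : K) := fun n => by
    have := isIntegral_algebraMap (R := ℤ) (A := K) (x := n)
    simpa using this
  rw [h3]
  exact ((hint a).mul hk).add ((hint b).mul hqz)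

/-- denominators -/
theorem adj_den {τ x : K} (hx : x ∈ Algebra.adjoin ℚ {τ}) :
    ∃ M : ℕ, 0 < M ∧ (M : K) * x ∈ Algebra.adjoin ℤ {τ} := by
  have hnat : ∀ n : ℕ, (n : K) ∈ Algebra.adjoin ℤ {τ} := fun n => natCast_mem _ n
  induction hx using Algebra.adjoin_induction with
  | mem x hx => exact ⟨1, one_pos, by rw [Nat.cast_one, one_mul]; exact Algebra.subset_adjoin hx⟩
  | algebraMap r =>
    refine ⟨r.den, r.den_pos, ?_⟩
    have h1 : (r.den : K) * algebraMap ℚ K r = (r.num : K) := by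
      have h2 := congrArg (fun t : ℚ => algebraMap ℚ K t) (Rat.den_mul_eq_num r)
      rw [map_mul, map_natCast, map_intCast] at h2
      exact h2
    rw [h1]
    exact intCast_mem _ _
  | add x y _ _ hx hy =>
    obtain ⟨M, hM, hx⟩ := hx
    obtain ⟨M', hM', hy⟩ := hy
    refine ⟨M * M', Nat.mul_pos hM hM', ?_⟩
    have e : ((M * M' : ℕ) : K) * (x + y) = M' * (M * x) + M * (M' * y) := by
      rw [Nat.cast_mul]; ring
    rw [e]
    exact add_mem (mul_mem (hnat _) hx) (mul_mem (hnat _) hy)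
  | mul x y _ _ hx hy =>
    obtain ⟨M, hM, hx⟩ := hx
    obtain ⟨M', hM', hy⟩ := hy
    refine ⟨M * M', Nat.mul_pos hM hM', ?_⟩
    have e : ((M * M' : ℕ) : K) * (x * y) = (M * x) * (M' * y) := by
      rw [Nat.cast_mul]; ring
    rw [e]
    exact mul_mem hx hy

end away

section nf

variable {K : Type} [Field K] [NumberField K]

open IntermediateField

/-- **Rationality in number fields.** -/
theorem nf_rat {N B : ℕ} (hN : 0 < N) (τ : K)
    (h : ∀ q : ℕ, q.Prime → B < q → ∃ r, Aw N r ∧ τ ^ q = τ + q * r) :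
    ∃ a : ℚ, algebraMap ℚ K a = τ := by
  classical
  have halg : ∀ x : K, IsAlgebraic ℚ x := fun x => Algebra.IsAlgebraic.isAlgebraic x
  obtain ⟨N1, hN1, hτ1⟩ := exists_aw τ (halg τ)
  let E : IntermediateField ℚ K := ℚ⟮τ⟯
  have : NumberField E := NumberField.mk
  -- denominators
  have hE : ∀ x : E, (x : K) ∈ Algebra.adjoin ℚ {τ} := by
    intro x
    have h1 : (x : K) ∈ (ℚ⟮τ⟯).toSubalgebra := x.2
    rwa [adjoin_simple_toSubalgebra_of_isAlgebraic (halg τ)] at h1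
  obtain ⟨M, hM, hMx⟩ : ∃ M : ℕ, 0 < M ∧ ∀ x : 𝓞 E, (M : K) * ((x : E) : K) ∈
      Algebra.adjoin ℤ {τ} := by
    let b := Module.Free.chooseBasis ℤ (𝓞 E)
    choose m hm hmb using fun i => adj_den (hE ((b i : 𝓞 E) : E))
    refine ⟨∏ i, m i, Finset.prod_pos fun i _ => hm i, fun x => ?_⟩
    have hx : ((x : E) : K) = ∑ i, ((b.repr x i : ℤ) : K) * (((b i : 𝓞 E) : E) : K) := by
      have h1 := b.sum_repr x
      have h2 := congrArg (fun t : 𝓞 E => ((t : E) : K)) h1
      rw [← h2]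
      refine (map_sum ((algebraMap E K).comp (algebraMap (𝓞 E) E)) _ _).trans ?_
      refine Finset.sum_congr rfl fun i _ => ?_
      rw [zsmul_eq_mul]
      simp
    rw [hx, Finset.mul_sum]
    refine sum_mem fun i _ => ?_
    obtain ⟨c, hc⟩ := Finset.dvd_prod_of_mem m (Finset.mem_univ i)
    have e : ((∏ i, m i : ℕ) : K) * (((b.repr x i : ℤ) : K) * (((b i : 𝓞 E) : E) : K)) =
        (c : K) * (((b.repr x i : ℤ) : K) * ((m i : K) * (((b i : 𝓞 E) : E) : K))) := by
      rw [hc, Nat.cast_mul]; ring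
    rw [e]
    exact mul_mem (natCast_mem _ c) (mul_mem (intCast_mem _ _) (hmb i))
  have hfin : Module.finrank ℚ E = 1 := by
    apply split_all (K := E) (B + 2 + N * N1 + M)
    intro q hq hBq x
    have hqN : ¬ q ∣ N * N1 := fun hd =>
      absurd (Nat.le_of_dvd (Nat.mul_pos hN hN1) hd) (by omega)
    have hqM : ¬ q ∣ M := fun hd => absurd (Nat.le_of_dvd hM hd) (by omega)
    obtain ⟨r, hr, hτ⟩ := h q hq (by omega)
    have hF : Fx (N * N1) q τ := ⟨hτ1.mono (Dvd.intro_left _ rfl), r, hr.mono (Dvd.intro _ rfl), hτ⟩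
    have hFx := hF.adj hq (by omega) (hMx x)
    have hxi : IsIntegral ℤ ((x : E) : K) := by
      have h1 : IsIntegral ℤ (x : E) := x.2
      exact h1.map (algebraMap E K).toIntAlgHom
    obtain ⟨y, hy, hxy⟩ := hFx.div hq (by omega) hqN hqM hxi
    have hyE : y ∈ E := by
      have hq0 : (q : K) ≠ 0 := by exact_mod_cast hq.ne_zero
      have h1 : y = (((x : E) : K) ^ q - ((x : E) : K)) / q := by
        rw [hxy]
        field_simp
        ring
      rw [h1]
      exact E.div_mem (E.sub_mem (pow_mem (x : E).2 q) (x : E).2) (_root_.natCast_mem E q)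
    have hyi : IsIntegral ℤ (⟨y, hyE⟩ : E) := by
      have h1 : IsIntegral ℤ (algebraMap E K ⟨y, hyE⟩) := hy
      exact (isIntegral_algebraMap_iff (algebraMap E K).injective).1 h1
    refine ⟨⟨⟨y, hyE⟩, hyi⟩, ?_⟩
    apply RingOfIntegers.ext
    apply Subtype.ext
    simpa using hxy
  have h1 : (ℚ⟮τ⟯ : IntermediateField ℚ K) = ⊥ := IntermediateField.finrank_eq_one_iff.1 hfin
  have h2 : τ ∈ (⊥ : IntermediateField ℚ K) := h1 ▸ mem_adjoin_simple_self ℚ τ
  exact IntermediateField.mem_bot.1 h2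

end nf

end

end Pool.Agent.T9h42.SP
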