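import Pool.Agent.T9h42.SP.Mem
import Pool.Agent.T9h42.DD.LocD

/-!
# The splitting in degree one
-/

set_option linter.unusedSectionVars false

namespace Pool.Agent.T9h42.KS

open MonoidAlgebra H970SH H842 Pool.Agent.Y69 Pool.Agent.Y69.StepC Pool.Agent.Y778.NK
  Pool.Agent.T9h42 Pool.Agent.T9h42.Q
open Pool.Agent.Y69.FJK (GK1)

noncomputable section

section gen

variable {G : Type} {R : Type} {M : Type} [Group G] [CommRing R] [AddCommGroup M] [Module R M]
variable (f : G → G → M) (hf : ∀ x y z, f (x * y) z - f x (y * z) + f (z * x) y = 0)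

theorem prH_tw' {C : Type} [Group C] (φ : C →* G) (z : G) (b : MonoidAlgebra R C) :
    prH f (MonoidAlgebra.mapDomainRingHom R φ b * MonoidAlgebra.single z⁻¹ 1)
      (MonoidAlgebra.single z 1) = evf (fun c => f (φ c * z⁻¹) z) b := by
  induction b using MonoidAlgebra.induction_linear with
  | zero => simp
  | add x y hx hy =>
    rw [map_add, add_mul, map_add, AddMonoidHom.add_apply, hx, hy, map_add]
  | single g r =>
    rw [MonoidAlgebra.mapDomainRingHom_apply, MonoidAlgebra.mapDomain_single,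
      MonoidAlgebra.single_mul_single, prH_single, evf_single, mul_one, mul_one]

include hf in
/-- the trace of a symbol on an arbitrary group -/
theorem Dn_nz' {C : Type} [Group C] (φ : C →* G) (z : G)
    (hz : ∀ c, z * φ c = φ c * z) {n : ℕ} (e : Matrix (Fin n) (Fin n) (MonoidAlgebra R C))
    (he : e * e = e) : Dn f hf (nz φ z hz (cl0 e he)) =
      ∑ i, evf (fun c => f (φ c * z⁻¹) z) (e i i) := by
  unfold nz
  rw [nu_cl0, Dn_cl, tw_val, tw_inv]
  have hZ : sc (Fin n) (MonoidAlgebra.single z 1 : MonoidAlgebra R G) *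
      e.map (MonoidAlgebra.mapDomainRingHom R φ) =
      e.map (MonoidAlgebra.mapDomainRingHom R φ) * sc (Fin n) (MonoidAlgebra.single z 1) :=
    sc_mul _ _ (cm _ (gu R z) (gu_comm φ z hz) e)
  have hz' : ∀ c, z⁻¹ * φ c = φ c * z⁻¹ := by
    intro c
    have := hz c
    calc z⁻¹ * φ c = z⁻¹ * (φ c * z) * z⁻¹ := by group
      _ = φ c * z⁻¹ := by rw [← this]; group
  have hZ' : sc (Fin n) (MonoidAlgebra.single z⁻¹ 1 : MonoidAlgebra R G) *
      e.map (MonoidAlgebra.mapDomainRingHom R φ) =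
      e.map (MonoidAlgebra.mapDomainRingHom R φ) * sc (Fin n) (MonoidAlgebra.single z⁻¹ 1) :=
    sc_mul _ _ (cm _ (gu R z⁻¹) (gu_comm φ z⁻¹ hz') e)
  have hZZ : sc (Fin n) (MonoidAlgebra.single z 1 : MonoidAlgebra R G) *
      sc (Fin n) (MonoidAlgebra.single z⁻¹ 1) = 1 := by
    rw [sc_mul_sc, MonoidAlgebra.single_mul_single, mul_inv_cancel, one_mul,
      ← MonoidAlgebra.one_def, sc_one]
  have h1 := prm_tw f hf (e.map (MonoidAlgebra.mapDomainRingHom R φ)) (map_idem _ he) _ _
    hZ hZ' hZZ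
  refine h1.trans ?_
  unfold prm
  have h2 : ∀ i j, prH f ((e.map (MonoidAlgebra.mapDomainRingHom R φ) *
      sc (Fin n) (MonoidAlgebra.single z⁻¹ 1) : Matrix (Fin n) (Fin n) (MonoidAlgebra R G)) i j)
      ((sc (Fin n) (MonoidAlgebra.single z 1) :
        Matrix (Fin n) (Fin n) (MonoidAlgebra R G)) j i) =
      if i = j then evf (fun c => f (φ c * z⁻¹) z) (e i i) else 0 := by
    intro i j
    unfold sc
    rw [Matrix.mul_diagonal, Matrix.diagonal_apply]
    by_cases hij : i = j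
    · subst hij
      rw [if_pos rfl, if_pos rfl, Matrix.map_apply, prH_tw' f]
    · rw [if_neg hij, if_neg (Ne.symm hij), map_zero]
  simp only [h2]
  simp only [Finset.sum_ite_eq, Finset.mem_univ, if_true]

theorem evf_zero {φ : G → M} (h : ∀ g, φ g = 0) (x : MonoidAlgebra R G) : evf φ x = 0 := by
  induction x using MonoidAlgebra.induction_linear with
  | zero => rw [map_zero]
  | add x y hx hy => rw [map_add, hx, hy, add_zero]
  | single g r => rw [evf_single, h, smul_zero]

include hf in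
theorem Dn_nz_zero {C : Type} [Group C] (φ : C →* G) (z : G)
    (hz : ∀ c, z * φ c = φ c * z) (h : ∀ c, f (φ c * z⁻¹) z = 0) (x : K0 (MonoidAlgebra R C)) :
    Dn f hf (nz φ z hz x) = 0 := by
  induction x using K0.induction with
  | hadd x y hx hy => rw [map_add, map_add, hx, hy, add_zero]
  | hneg x hx => rw [map_neg, map_neg, hx, neg_zero]
  | hcl n e he =>
    rw [Dn_nz' f hf φ z hz e he]
    exact Finset.sum_eq_zero fun i _ => evf_zero h _

end gen

section dv

variable {k G : Type} [CommRing k] [Group G]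

theorem nz_dead (H : FinSub G) (z : Cz H.1) (hz : ∀ χ : Cz H.1 →* Multiplicative ℤ, χ z = 1)
    {c : G} {χ : G → ℤ} (hχ : AddOnC c χ) (x : K0 (MonoidAlgebra k H.1)) :
    Tr k hχ (nz H.1.subtype (z : G) (fin_comm G H z) x) = 0 := by
  classical
  apply Dn_nz_zero
  intro h
  rw [cocf_val c _ (H.1.subtype h) z (fin_comm G H z h)]
  split_ifs with hc
  · have hs : sel c (h : G) * c * (sel c (h : G))⁻¹ = (h : G) := sel_spec hc
    have hcen : ∀ a : Cz H.1, ((sel c (h : G))⁻¹ * (a : G) * sel c (h : G)) * c =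
        c * ((sel c (h : G))⁻¹ * (a : G) * sel c (h : G)) := by
      intro a
      have h1 : (a : G) * (h : G) = (h : G) * (a : G) :=
        (Subgroup.mem_centralizer_iff.1 a.2 (h : G) h.2).symm
      have h2 : sel c (h : G) * c = (h : G) * sel c (h : G) := by
        calc sel c (h : G) * c = (sel c (h : G) * c * (sel c (h : G))⁻¹) * sel c (h : G) := by group
          _ = (h : G) * sel c (h : G) := by rw [hs]
      have h3 : (sel c (h : G))⁻¹ * (h : G) = c * (sel c (h : G))⁻¹ := by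
        calc (sel c (h : G))⁻¹ * (h : G) =
            (sel c (h : G))⁻¹ * ((h : G) * sel c (h : G)) * (sel c (h : G))⁻¹ := by group
          _ = c * (sel c (h : G))⁻¹ := by rw [← h2]; group
      calc ((sel c (h : G))⁻¹ * (a : G) * sel c (h : G)) * c =
          (sel c (h : G))⁻¹ * (a : G) * (sel c (h : G) * c) := by group
        _ = (sel c (h : G))⁻¹ * ((a : G) * (h : G)) * sel c (h : G) := by rw [h2]; group
        _ = ((sel c (h : G))⁻¹ * (h : G)) * (a : G) * sel c (h : G) := by rw [h1]; group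
        _ = c * ((sel c (h : G))⁻¹ * (a : G) * sel c (h : G)) := by rw [h3]; group
    let χ' : Cz H.1 →* Multiplicative ℤ :=
      { toFun := fun a => Multiplicative.ofAdd (χ ((sel c (h : G))⁻¹ * (a : G) * sel c (h : G)))
        map_one' := by
          have e : (sel c (h : G))⁻¹ * ((1 : Cz H.1) : G) * sel c (h : G) = 1 := by
            rw [Subgroup.coe_one]; group
          rw [e, Pool.Agent.T9h42.AddOnC.one hχ]
          rfl
        map_mul' := fun a a' => by
          have e : (sel c (h : G))⁻¹ * ((a * a' : Cz H.1) : G) * sel c (h : G) =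
              ((sel c (h : G))⁻¹ * (a : G) * sel c (h : G)) *
                ((sel c (h : G))⁻¹ * (a' : G) * sel c (h : G)) := by
            rw [Subgroup.coe_mul]; group
          rw [e]
          exact congrArg Multiplicative.ofAdd (hχ _ _ (hcen a) (hcen a')) }
    have h4 : χ ((sel c (h : G))⁻¹ * (z : G) * sel c (h : G)) = 0 := hz χ'
    show ((χ ((sel c (h : G))⁻¹ * (z : G) * sel c (h : G)) : ℤ) : k) = 0
    rw [h4, Int.cast_zero]
  · rfl

theorem Tr_dv {y : ZK k G} (hy : y ∈ DvK k G) {c : G} {χ : G → ℤ} (hχ : AddOnC c χ) :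
    Tr k hχ (btG k G y) = 0 := by
  unfold DvK at hy
  induction hy using AddSubgroup.closure_induction with
  | mem y hy =>
    obtain ⟨H, z, x, hH, hz, rfl⟩ := hy
    rw [btG_of]
    exact nz_dead H z hz hχ x
  | zero => rw [map_zero, map_zero]
  | add x y _ _ hx hy => rw [map_add, map_add, hx, hy, add_zero]
  | neg x _ hx => rw [map_neg, map_neg, hx, neg_zero]

theorem DvK_eq : DvK k G = DvG k G ℤ := rfl

theorem dv_tors (hyp : ZTor G) {y : ZK k G} (hy : y ∈ DvK k G) :
    ∃ l : ℕ, 0 < l ∧ l • y = 0 := by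
  unfold DvK at hy
  induction hy using AddSubgroup.closure_induction with
  | mem y hy =>
    obtain ⟨H, z, x, hH, hz, rfl⟩ := hy
    obtain ⟨m, hm, h⟩ := hyp H z hH hz
    refine ⟨m, hm, ?_⟩
    rw [← ZK.of_pow]
    have h1 : ZK.zhom H x (z ^ m) = 1 := by
      have h2 : commutator (Cz H.1) ≤ (ZK.zhom (k := k) H x).ker :=
        Abelianization.commutator_subset_ker _
      exact h2 h
    exact congrArg Multiplicative.toAdd h1
  | zero => exact ⟨1, one_pos, smul_zero _⟩
  | add x y _ _ hx hy =>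
    obtain ⟨m, hm, hx⟩ := hx
    obtain ⟨n, hn, hy⟩ := hy
    refine ⟨m * n, Nat.mul_pos hm hn, ?_⟩
    rw [smul_add, mul_comm, mul_smul, hx, smul_zero, mul_comm, mul_smul, hy, smul_zero, add_zero]
  | neg x _ hx =>
    obtain ⟨m, hm, hx⟩ := hx
    exact ⟨m, hm, by rw [smul_neg, hx, neg_zero]⟩

end dv

section field

variable {F G : Type} [Field F] [CharZero F] [Group G]

theorem field_surj (b : K1 (MonoidAlgebra F G)) : ∃ M : ℕ, 0 < M ∧ ∃ V : ZK F G,
    (M • b - btG F G V : K1 (MonoidAlgebra F G)) ∈ (Tz1 F G : AddSubgroup (K1 (MonoidAlgebra F G))) := by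
  obtain ⟨M, V, hM, h⟩ := all_tr b
  refine ⟨M, hM, V, (mem_Tz1 _).2 fun c χ hχ hc => ?_⟩
  rw [map_sub, map_nsmul, h c χ hχ hc, nsmul_eq_mul, sub_self]

/-- elements whose traces vanish -/
theorem field_ker (y : ZK F G) (h : ∀ (c : G) (χ : G → ℤ) (hχ : AddOnC c χ), 0 < orderOf c →
    Tr F hχ (btG F G y) = 0) : ∃ l : ℕ, 0 < l ∧ l • y ∈ DvK F G := by
  obtain ⟨m, hm, N, X, hX⟩ := Pool.Agent.T9h42.Q.ZK_mem y
  obtain ⟨l, hl, h2⟩ := Pool.Agent.T9h42.Q.global_dv (dF F) tfF Finset.univ X (by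
    intro c hc χ hχ
    rw [← tr_sum Finset.univ X hχ, ← hX, map_nsmul, map_nsmul, h c χ hχ hc, smul_zero])
  refine ⟨l * m, Nat.mul_pos hl hm, ?_⟩
  rw [mul_smul, hX, DvK_eq]
  exact h2

end field

section dom

variable (R F G : Type) [CommRing R] [IsDomain R] [IsNoetherianRing R] [IsIntegrallyClosed R]
  [Field F] [Algebra R F] [IsFractionRing R F] [CharZero F] [Group G]

include F in
theorem dom_surj (b : K1 (MonoidAlgebra R G)) : ∃ M : ℕ, 0 < M ∧ ∃ V : ZK R G,
    (M • b - btG R G V : K1 (MonoidAlgebra R G)) ∈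
      (Tz1 R G : AddSubgroup (K1 (MonoidAlgebra R G))) := by
  let ι : R →+* F := algebraMap R F
  have hinj : Function.Injective ι := IsFractionRing.injective R F
  obtain ⟨M, V, hM, h⟩ := all_tr (K1map (mapRingHom G ι) b)
  have hsing : ∀ (c : G) (χ : G → ℤ) (hχ : AddOnC c χ), 0 < orderOf c →
      ¬ IsUnit ((orderOf c : ℕ) : R) → Tr F hχ (btG F G V) = 0 := by
    intro c χ hχ hc hs
    rw [h c χ hχ hc, Tr_map, Tr_sing' ι hinj
      (fun p _ hp x hx => Pool.Agent.T9h42.SP.dom_sep p hp x hx) hχ hc hs, map_zero, mul_zero]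
  obtain ⟨m, w, hm, hd⟩ := loc_gen ι hinj
    (fun x hx => IsIntegrallyClosed.algebraMap_eq_of_integral hx) V hsing
  refine ⟨m * M, Nat.mul_pos hm hM, w, (mem_Tz1 _).2 fun c χ hχ hc => ?_⟩
  apply hinj
  have h1 : Tr F hχ (btG F G (m • V - ccZ ι G w)) = 0 := Tr_dv (by rw [DvK_eq]; exact hd) hχ
  rw [map_sub, map_sub, map_nsmul, map_nsmul, h c χ hχ hc, btG_ccZ, Tr_map, Tr_map,
    sub_eq_zero] at h1
  rw [map_zero, map_sub, map_sub, map_nsmul, map_nsmul, ← h1, nsmul_eq_mul, nsmul_eq_mul,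
    Nat.cast_mul]
  ring

/-- the map to the symbols over the field -/
def gam : ZK R G →+ ZK F G := ccZ (algebraMap R F) G

theorem gam_of (H : FinSub G) (z : Cz H.1) (x : GK0 R H.1) :
    gam R F G (ZK.of H z x) = ZK.of H z (coef (algebraMap R F) H.1 x) :=
  ccZ_of _ H z x

theorem tr_gam (y : ZK R G) {c : G} {χ : G → ℤ} (hχ : AddOnC c χ) :
    Tr F hχ (btG F G (gam R F G y)) = algebraMap R F (Tr R hχ (btG R G y)) := by
  unfold gam
  rw [btG_ccZ, Tr_map]

theorem dom_splits : Splits (btG R G : ZK R G →+ GK1 R G) (Tz1 R G)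
    ((DvK F G).comap (gam R F G)) := by
  refine ⟨dom_surj R F G, fun y hy => ?_, fun y hy => ?_⟩
  · have h1 := (mem_Tz1 (btG R G y)).1 hy
    obtain ⟨l, hl, h2⟩ := field_ker (gam R F G y) (fun c χ hχ hc => by
      rw [tr_gam, h1 c χ hχ hc, map_zero])
    refine ⟨l, hl, ?_⟩
    show gam R F G (l • y) ∈ DvK F G
    rw [map_nsmul]
    exact h2
  · refine (mem_Tz1 (btG R G y)).2 fun c χ hχ hc => ?_
    apply IsFractionRing.injective R F
    rw [← tr_gam, map_zero]
    exact Tr_dv hy hχ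

theorem dom_splits_sep (hyp : ZTor G) :
    Splits (btG R G : ZK R G →+ GK1 R G) (Tz1 R G) (gam R F G).ker := by
  obtain ⟨h1, h2, h3⟩ := dom_splits R F G
  refine ⟨h1, fun y hy => ?_, fun y hy => h3 y ?_⟩
  · obtain ⟨l, hl, h4⟩ := h2 y hy
    obtain ⟨l', hl', h5⟩ := dv_tors hyp h4
    refine ⟨l' * l, Nat.mul_pos hl' hl, ?_⟩
    show gam R F G ((l' * l) • y) = 0
    rw [mul_smul, map_nsmul]
    exact h5
  · show gam R F G y ∈ DvK F G
    rw [show gam R F G y = 0 from hy]
    exact AddSubgroup.zero_mem _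

end dom

end

end Pool.Agent.T9h42.KS
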