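import Pool.Agent.T9h42.SP.NF

/-!
# Elements of finitely generated rings which are fixed by the Frobenius modulo almost all primes
-/

set_option linter.unusedSectionVars false

namespace Pool.Agent.T9h42.SP

open Polynomial

noncomputable section

section max

variable {L : Type} [Field L] [CharZero L]

theorem adj_le (s : Finset L) {x : L} (hx : x ∈ Algebra.adjoin ℤ (s : Set L)) :
    x ∈ Algebra.adjoin ℚ (s : Set L) := by
  induction hx using Algebra.adjoin_induction with
  | mem x hx => exact Algebra.subset_adjoin hx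
  | algebraMap r =>
    have : algebraMap ℤ L r = (r : L) := by simp
    rw [this]; exact intCast_mem _ _
  | add x y _ _ hx hy => exact add_mem hx hy
  | mul x y _ _ hx hy => exact mul_mem hx hy

/-- the images in number fields are rational -/
theorem img_rat (s : Finset L) (t : L) (ht : t ∈ Algebra.adjoin ℤ (s : Set L)) (B : ℕ)
    (h : ∀ q : ℕ, q.Prime → B < q → ∃ r ∈ Algebra.adjoin ℤ (s : Set L), t ^ q = t + q * r)
    {K : Type} [Field K] [CharZero K] (π : Algebra.adjoin ℚ (s : Set L) →+* K)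
    (hπ : Function.Surjective π) : ∃ a : ℚ, π ⟨t, adj_le s ht⟩ = algebraMap ℚ K a := by
  classical
  have : Algebra.FiniteType ℚ (Algebra.adjoin ℚ (s : Set L)) :=
    (Subalgebra.fg_iff_finiteType _).1 ⟨s, rfl⟩
  have : Algebra.FiniteType ℚ K := Algebra.FiniteType.of_surjective (f := π.toRatAlgHom) hπ
  have : Module.Finite ℚ K := finite_of_finite_type_of_isJacobsonRing ℚ _
  have : NumberField K := NumberField.mk
  choose n hn hna using fun x : s => exists_aw (K := K)
    (π ⟨x, Algebra.subset_adjoin x.2⟩) (Algebra.IsAlgebraic.isAlgebraic _)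
  let N : ℕ := ∏ x, n x
  have hN : 0 < N := Finset.prod_pos fun x _ => hn x
  have hA : ∀ x (hx : x ∈ Algebra.adjoin ℤ (s : Set L)), Aw N (π ⟨x, adj_le s hx⟩) := by
    intro x hx
    induction hx using Algebra.adjoin_induction with
    | mem x hx => exact (hna ⟨x, hx⟩).mono (Finset.dvd_prod_of_mem n (Finset.mem_univ _))
    | algebraMap r =>
      have h1 : π ⟨algebraMap ℤ L r, adj_le s (Subalgebra.algebraMap_mem _ r)⟩ = (r : K) := by
        have h2 : (⟨algebraMap ℤ L r, adj_le s (Subalgebra.algebraMap_mem _ r)⟩ :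
            Algebra.adjoin ℚ (s : Set L)) = ((r : ℤ) : Algebra.adjoin ℚ (s : Set L)) := by
          apply Subtype.ext
          simp
        rw [h2, map_intCast]
      rw [h1]
      apply Aw.of_int
      have := isIntegral_algebraMap (R := ℤ) (A := K) (x := r)
      simpa using this
    | add x y hx' hy' hx hy =>
      have h1 : π ⟨x + y, adj_le s (add_mem hx' hy')⟩ =
          π ⟨x, adj_le s hx'⟩ + π ⟨y, adj_le s hy'⟩ := by
        rw [← map_add]; rfl
      rw [h1]; exact hx.add hy
    | mul x y hx' hy' hx hy =>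
      have h1 : π ⟨x * y, adj_le s (mul_mem hx' hy')⟩ =
          π ⟨x, adj_le s hx'⟩ * π ⟨y, adj_le s hy'⟩ := by
        rw [← map_mul]; rfl
      rw [h1]; exact hx.mul hy
  obtain ⟨a, ha⟩ := nf_rat (K := K) (N := N) (B := B) hN (π ⟨t, adj_le s ht⟩) (by
    intro q hq hB
    obtain ⟨r, hr, hr1⟩ := h q hq hB
    refine ⟨π ⟨r, adj_le s hr⟩, hA r hr, ?_⟩
    rw [← map_pow]
    have h1 : (⟨t, adj_le s ht⟩ : Algebra.adjoin ℚ (s : Set L)) ^ q =
        ⟨t, adj_le s ht⟩ + (q : Algebra.adjoin ℚ (s : Set L)) * ⟨r, adj_le s hr⟩ := by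
      apply Subtype.ext
      simpa using hr1
    rw [h1, map_add, map_mul, map_natCast])
  exact ⟨a, ha.symm⟩

/-- the images in the residue fields are rational -/
theorem max_rat (s : Finset L) (t : L) (ht : t ∈ Algebra.adjoin ℤ (s : Set L)) (B : ℕ)
    (h : ∀ q : ℕ, q.Prime → B < q → ∃ r ∈ Algebra.adjoin ℤ (s : Set L), t ^ q = t + q * r)
    (M : Ideal (Algebra.adjoin ℚ (s : Set L))) (hM : M.IsMaximal) :
    ∃ a : ℚ, (⟨t, adj_le s ht⟩ - algebraMap ℚ (Algebra.adjoin ℚ (s : Set L)) a :
      Algebra.adjoin ℚ (s : Set L)) ∈ M := by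
  let _ := Ideal.Quotient.field M
  let θ : ℚ →+* Algebra.adjoin ℚ (s : Set L) ⧸ M :=
    (Ideal.Quotient.mk M).comp (algebraMap ℚ (Algebra.adjoin ℚ (s : Set L)))
  have : CharZero (Algebra.adjoin ℚ (s : Set L) ⧸ M) := charZero_of_injective_ringHom θ.injective
  obtain ⟨a, ha⟩ := img_rat s t ht B h (K := Algebra.adjoin ℚ (s : Set L) ⧸ M)
    (Ideal.Quotient.mk M) Ideal.Quotient.mk_surjective
  refine ⟨a, ?_⟩
  rw [← Ideal.Quotient.eq_zero_iff_mem, map_sub, sub_eq_zero]
  refine ha.trans ?_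
  exact RingHom.congr_fun (Subsingleton.elim (algebraMap ℚ (Algebra.adjoin ℚ (s : Set L) ⧸ M)) θ) a

/-- **Rationality.** -/
theorem rat_of_frob (s : Finset L) (t : L) (ht : t ∈ Algebra.adjoin ℤ (s : Set L)) (B : ℕ)
    (h : ∀ q : ℕ, q.Prime → B < q → ∃ r ∈ Algebra.adjoin ℤ (s : Set L), t ^ q = t + q * r) :
    ∃ a : ℚ, algebraMap ℚ L a = t := by
  classical
  let A := Algebra.adjoin ℚ (s : Set L)
  have hft : Algebra.FiniteType ℚ A := (Subalgebra.fg_iff_finiteType _).1 ⟨s, rfl⟩
  let t' : A := ⟨t, adj_le s ht⟩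
  by_cases halg : IsAlgebraic ℚ t
  · obtain ⟨M, hM⟩ := Ideal.exists_maximal A
    obtain ⟨a, ha⟩ := max_rat s t ht B h M hM
    have hint : IsIntegral ℚ t := halg.isIntegral
    have h1 : aeval t' (minpoly ℚ t) = 0 := by
      apply Subtype.ext
      have h2 : ((aeval t' (minpoly ℚ t) : A) : L) = aeval t (minpoly ℚ t) :=
        (Polynomial.aeval_algHom_apply A.val t' (minpoly ℚ t)).symm
      rw [h2, minpoly.aeval]
      rfl
    have h2 : (minpoly ℚ t).IsRoot a := by
      have h3 := Polynomial.sub_dvd_eval_sub t' (algebraMap ℚ A a)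
        ((minpoly ℚ t).map (algebraMap ℚ A))
      rw [Polynomial.eval_map_algebraMap, Polynomial.eval_map_algebraMap, h1,
        Polynomial.aeval_algebraMap_apply_eq_algebraMap_eval, zero_sub] at h3
      have h4 : algebraMap ℚ A ((minpoly ℚ t).eval a) ∈ M := by
        rw [← neg_mem_iff]
        exact M.mem_of_dvd h3 ha
      by_contra h5
      apply hM.ne_top
      apply Ideal.eq_top_of_isUnit_mem _ h4
      exact (IsUnit.mk0 _ h5).map (algebraMap ℚ A)
    have h3 := degree_eq_one_of_irreducible_of_root (minpoly.irreducible hint) h2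
    exact minpoly.mem_range_of_degree_eq_one ℚ t h3
  · exfalso
    let φ : ℚ[X] →ₐ[ℚ] A := aeval t'
    have hφ : Function.Injective φ := by
      rw [injective_iff_map_eq_zero]
      intro P hP
      by_contra hP0
      apply halg
      refine ⟨P, hP0, ?_⟩
      have h2 : ((aeval t' P : A) : L) = aeval t P :=
        (Polynomial.aeval_algHom_apply A.val t' P).symm
      rw [← h2]
      have h3 : aeval t' P = 0 := hP
      rw [h3]
      rfl
    let _ : Algebra ℚ[X] A := φ.toRingHom.toAlgebra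
    have hmap : algebraMap ℚ[X] A = φ.toRingHom := rfl
    have : IsScalarTower ℚ ℚ[X] A := IsScalarTower.of_algebraMap_eq fun x => by
      rw [hmap]
      exact (φ.commutes x).symm
    have : Module.IsTorsionFree ℚ[X] A := by
      rw [Module.isTorsionFree_iff_algebraMap_injective]
      exact hφ
    have : Algebra.FiniteType ℚ[X] A := Algebra.FiniteType.of_restrictScalars_finiteType ℚ ℚ[X] A
    have : Algebra.FinitePresentation ℚ[X] A := Algebra.FinitePresentation.of_finiteType.1 this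
    have : Module.Flat ℚ[X] A := inferInstance
    have hopen : IsOpenMap (PrimeSpectrum.comap (algebraMap ℚ[X] A)) :=
      PrimeSpectrum.isOpenMap_comap_of_hasGoingDown_of_finitePresentation
    have hr : IsOpen (Set.range (PrimeSpectrum.comap (algebraMap ℚ[X] A))) := by
      rw [← Set.image_univ]
      exact hopen _ isOpen_univ
    obtain ⟨x0⟩ : Nonempty (PrimeSpectrum A) := inferInstance
    obtain ⟨_, ⟨g, rfl⟩, hx, hg⟩ := PrimeSpectrum.isTopologicalBasis_basic_opens.exists_subset_of_mem_open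
      (⟨x0, rfl⟩ : PrimeSpectrum.comap (algebraMap ℚ[X] A) x0 ∈ Set.range _) hr
    have hg0 : g ≠ 0 := by
      rintro rfl
      apply hx
      exact Ideal.zero_mem _
    obtain ⟨p, hp, hpg⟩ : ∃ p : ℕ, p.Prime ∧ aeval (Real.sqrt p) g ≠ 0 := by
      by_contra hcon
      push Not at hcon
      have h1 : (g.map (algebraMap ℚ ℝ)) = 0 := by
        apply Polynomial.eq_zero_of_infinite_isRoot
        refine Set.Infinite.mono (s := (fun p : ℕ => Real.sqrt p) '' {p | p.Prime}) ?_ ?_
        · rintro _ ⟨p, hp, rfl⟩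
          show (g.map (algebraMap ℚ ℝ)).eval (Real.sqrt p) = 0
          rw [Polynomial.eval_map_algebraMap]
          exact hcon p hp
        · apply Set.Infinite.image
          · intro a _ b _ hab
            have h2 : Real.sqrt a = Real.sqrt b := hab
            have h3 := (Real.sqrt_inj (Nat.cast_nonneg a) (Nat.cast_nonneg b)).1 h2
            exact_mod_cast h3
          · exact Nat.infinite_setOf_prime
      exact hg0 ((Polynomial.map_eq_zero_iff (algebraMap ℚ ℝ).injective).1 h1)
    let ψ : ℚ[X] →+* ℝ := (aeval (Real.sqrt p) : ℚ[X] →ₐ[ℚ] ℝ).toRingHom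
    let P : PrimeSpectrum ℚ[X] := ⟨RingHom.ker ψ, RingHom.ker_isPrime ψ⟩
    have hP : P ∈ (PrimeSpectrum.basicOpen g : Set (PrimeSpectrum ℚ[X])) := by
      intro h1
      exact hpg h1
    obtain ⟨Q, hQ⟩ := hg hP
    have hX : (X ^ 2 - C (p : ℚ) : ℚ[X]) ∈ P.asIdeal := by
      show ψ (X ^ 2 - C (p : ℚ)) = 0
      show aeval (Real.sqrt p) (X ^ 2 - C (p : ℚ) : ℚ[X]) = 0
      rw [map_sub, map_pow, aeval_X, aeval_C, Real.sq_sqrt (Nat.cast_nonneg p)]
      simp
    have hQ1 : t' ^ 2 - (p : A) ∈ Q.asIdeal := by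
      rw [← hQ] at hX
      have h1 : algebraMap ℚ[X] A (X ^ 2 - C (p : ℚ)) ∈ Q.asIdeal := hX
      have h2 : algebraMap ℚ[X] A (X ^ 2 - C (p : ℚ)) = t' ^ 2 - (p : A) := by
        show aeval t' (X ^ 2 - C (p : ℚ) : ℚ[X]) = _
        rw [map_sub, map_pow, aeval_X, aeval_C]
        simp
      rwa [h2] at h1
    obtain ⟨M, hM, hQM⟩ := Ideal.exists_le_maximal Q.asIdeal Q.2.ne_top
    obtain ⟨a, ha⟩ := max_rat s t ht B h M hM
    have h2 : a ^ 2 = (p : ℚ) := by
      have h4 : algebraMap ℚ A (a ^ 2 - p) ∈ M := by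
        have h5 : algebraMap ℚ A (a ^ 2 - p) = (t' ^ 2 - (p : A)) -
            (t' - algebraMap ℚ A a) * (t' + algebraMap ℚ A a) := by
          rw [map_sub, map_pow, map_natCast]; ring
        rw [h5]
        exact M.sub_mem (hQM hQ1) (M.mul_mem_right _ ha)
      by_contra h5
      apply hM.ne_top
      apply Ideal.eq_top_of_isUnit_mem _ h4
      exact (IsUnit.mk0 _ (sub_ne_zero.2 h5)).map (algebraMap ℚ A)
    have h3 : Irrational (Real.sqrt p) := hp.irrational_sqrt
    apply h3
    have h4 : (p : ℝ) = ((a : ℚ) : ℝ) ^ 2 := by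
      have h5 := congrArg (fun x : ℚ => (x : ℝ)) h2
      push_cast at h5
      exact h5.symm
    rw [h4, Real.sqrt_sq_eq_abs]
    exact ⟨|a|, by push_cast; rfl⟩

end max

end

end Pool.Agent.T9h42.SP
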