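import Pool.Agent.T9h42.SP.Cong
import Pool.Agent.T9h42.SP.Spec
import Pool.Agent.T9h42.DD.Dual

/-!
# The traces at the generators of a cyclic group are those of a virtual character
-/

set_option linter.unusedSectionVars false

namespace Pool.Agent.T9h42.SP

open MonoidAlgebra H970SH H842 Pool.Agent.Y69 Pool.Agent.Y69.StepC Pool.Agent.Y778.NK
  Pool.Agent.T9h42 Pool.Agent.T9h42.Q

noncomputable section

section four

variable {L : Type} [Field L] {C : Type} [CommGroup C] [Fintype C]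

/-- the idempotent of a character -/
def eps (ψ : C →* Lˣ) : MonoidAlgebra L C :=
  ∑ c : C, single c ((Fintype.card C : L)⁻¹ * ((ψ c⁻¹ : Lˣ) : L))

theorem eps_coeff (ψ : C →* Lˣ) (x : C) :
    (eps ψ).coeff x = (Fintype.card C : L)⁻¹ * ((ψ x⁻¹ : Lˣ) : L) := by
  classical
  unfold eps
  rw [coeff_sum, Finsupp.finsetSum_apply, Finset.sum_eq_single x]
  · rw [coeff_single, Finsupp.single_eq_same]
  · intro b _ hb
    rw [coeff_single, Finsupp.single_eq_of_ne (Ne.symm hb)]
  · intro h; exact absurd (Finset.mem_univ x) h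

theorem eps_idem [CharZero L] (ψ : C →* Lˣ) : eps ψ * eps ψ = eps ψ := by
  classical
  have hm : (Fintype.card C : L) ≠ 0 := by exact_mod_cast Fintype.card_pos.ne'
  unfold eps
  rw [Finset.sum_mul_sum]
  have h1 : ∀ c : C, ∑ d : C, (single c ((Fintype.card C : L)⁻¹ * ((ψ c⁻¹ : Lˣ) : L)) *
      single d ((Fintype.card C : L)⁻¹ * ((ψ d⁻¹ : Lˣ) : L)) : MonoidAlgebra L C) =
      ∑ x : C, single x ((Fintype.card C : L)⁻¹ * ((Fintype.card C : L)⁻¹ *
        ((ψ x⁻¹ : Lˣ) : L))) := by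
    intro c
    refine Fintype.sum_equiv (Equiv.mulLeft c) _ _ fun d => ?_
    rw [single_mul_single]
    congr 1
    rw [Equiv.coe_mulLeft, mul_inv, map_mul, Units.val_mul]
    ring
  rw [Finset.sum_congr rfl fun c _ => h1 c, Finset.sum_const, Finset.card_univ]
  rw [Finset.smul_sum]
  refine Finset.sum_congr rfl fun x _ => ?_
  apply coeff_injective
  ext y
  have h2 : (Fintype.card C • (single x ((Fintype.card C : L)⁻¹ * ((Fintype.card C : L)⁻¹ *
        ((ψ x⁻¹ : Lˣ) : L))) : MonoidAlgebra L C)) =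
      single x (Fintype.card C • ((Fintype.card C : L)⁻¹ * ((Fintype.card C : L)⁻¹ *
        ((ψ x⁻¹ : Lˣ) : L)))) := by
    exact (map_nsmul (singleAddHom x) _ _).symm
  rw [h2, nsmul_eq_mul, ← mul_assoc, mul_inv_cancel₀ hm, one_mul]

open Classical in
theorem char_sum [CharZero L] [IsAlgClosed L] [Fintype (C →* Lˣ)] (y : C) :
    ∑ ψ : C →* Lˣ, ((ψ y : Lˣ) : L) = if y = 1 then (Fintype.card C : L) else 0 := by
  classical
  have hne : NeZero ((Monoid.exponent C : ℕ) : L) := ⟨by
    have : Monoid.exponent C ≠ 0 := Monoid.exponent_ne_zero_of_finite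
    exact_mod_cast this⟩
  split_ifs with h
  · subst h
    have h1 : ∀ ψ : C →* Lˣ, ((ψ 1 : Lˣ) : L) = 1 := fun ψ => by rw [map_one, Units.val_one]
    rw [Finset.sum_congr rfl fun ψ _ => h1 ψ, Finset.sum_const, Finset.card_univ, nsmul_eq_mul,
      mul_one]
    have h2 := CommGroup.card_monoidHom_of_hasEnoughRootsOfUnity C L
    rw [Nat.card_eq_fintype_card, Nat.card_eq_fintype_card] at h2
    rw [h2]
  · obtain ⟨ψ0, h0⟩ := CommGroup.exists_apply_ne_one_of_hasEnoughRootsOfUnity C L h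
    have h1 : ∑ ψ : C →* Lˣ, ((ψ y : Lˣ) : L) =
        ((ψ0 y : Lˣ) : L) * ∑ ψ : C →* Lˣ, ((ψ y : Lˣ) : L) := by
      rw [Finset.mul_sum]
      refine (Fintype.sum_equiv (Equiv.mulLeft ψ0) _ _ fun ψ => ?_).symm
      rw [Equiv.coe_mulLeft, MonoidHom.mul_apply, Units.val_mul]
    have h2 : (((ψ0 y : Lˣ) : L) - 1) * ∑ ψ : C →* Lˣ, ((ψ y : Lˣ) : L) = 0 := by
      rw [sub_mul, one_mul, ← h1, sub_self]
    refine (mul_eq_zero.1 h2).resolve_left ?_
    intro h3
    apply h0
    apply Units.ext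
    rw [Units.val_one]
    exact sub_eq_zero.1 h3

/-- **Fourier inversion.** -/
theorem four [CharZero L] [IsAlgClosed L] (T : C → L)
    (hr : ∀ ψ : C →* Lˣ, ∃ a : ℚ, algebraMap ℚ L a = ∑ h, T h * ((ψ h : Lˣ) : L)) :
    ∃ N : ℕ, 0 < N ∧ ∃ u ∈ Hn (MonoidAlgebra L C), ∀ h, u.coeff h = N * T h := by
  classical
  have : Fintype (C →* Lˣ) := Fintype.ofFinite _
  choose a ha using hr
  let N : ℕ := ∏ ψ, (a ψ).den
  have hN : 0 < N := Finset.prod_pos fun ψ _ => (a ψ).den_pos
  have hz : ∀ ψ : C →* Lˣ, ∃ z : ℤ, (z : L) = N * ∑ h, T h * ((ψ h : Lˣ) : L) := by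
    intro ψ
    obtain ⟨c, hc⟩ := Finset.dvd_prod_of_mem (fun ψ => (a ψ).den) (Finset.mem_univ ψ)
    refine ⟨c * (a ψ).num, ?_⟩
    rw [← ha ψ]
    have h1 : (N : L) = ((a ψ).den : L) * c := by
      show ((∏ ψ, (a ψ).den : ℕ) : L) = _
      rw [hc, Nat.cast_mul]
    have h2 : ((a ψ).den : L) * algebraMap ℚ L (a ψ) = ((a ψ).num : L) := by
      have h2 := congrArg (fun t : ℚ => algebraMap ℚ L t) (Rat.den_mul_eq_num (a ψ))
      rw [map_mul, map_natCast, map_intCast] at h2
      exact h2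
    rw [h1, Int.cast_mul, Int.cast_natCast, ← h2]
    ring
  choose z hz using hz
  refine ⟨N, hN, ∑ ψ, z ψ • eps ψ, ?_, ?_⟩
  · exact AddSubgroup.sum_mem _ fun ψ _ => AddSubgroup.zsmul_mem _ (Hn_idem (eps_idem ψ)) _
  · intro x
    have hsm : ∀ (n : ℤ) (y : MonoidAlgebra L C) (c : C), (n • y).coeff c = n • y.coeff c := by
      intro n y c
      let E : MonoidAlgebra L C →+ L := AddMonoidHom.mk' (fun x => x.coeff c) fun x y => by
        rw [coeff_add, Finsupp.add_apply]
      exact map_zsmul E n y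
    rw [coeff_sum, Finsupp.finsetSum_apply]
    have h1 : ∀ ψ : C →* Lˣ, (z ψ • eps ψ).coeff x =
        ∑ h, (N : L) * (Fintype.card C : L)⁻¹ * T h * ((ψ (h * x⁻¹) : Lˣ) : L) := by
      intro ψ
      rw [hsm, eps_coeff, zsmul_eq_mul, hz, Finset.mul_sum, Finset.sum_mul]
      refine Finset.sum_congr rfl fun h _ => ?_
      rw [map_mul, Units.val_mul]
      ring
    rw [Finset.sum_congr rfl fun ψ _ => h1 ψ, Finset.sum_comm]
    have h2 : ∀ h : C, ∑ ψ : C →* Lˣ, (N : L) * (Fintype.card C : L)⁻¹ * T h *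
        ((ψ (h * x⁻¹) : Lˣ) : L) = if h = x then (N : L) * T h else 0 := by
      intro h
      have hm : (Fintype.card C : L) ≠ 0 := by exact_mod_cast Fintype.card_pos.ne'
      rw [← Finset.mul_sum, char_sum]
      by_cases hx : h = x
      · subst hx
        rw [if_pos (mul_inv_cancel h), if_pos rfl]
        field_simp
      · rw [if_neg, if_neg hx, mul_zero]
        intro h3
        exact hx (mul_inv_eq_one.1 h3)
    rw [Finset.sum_congr rfl fun h _ => h2 h, Finset.sum_ite_eq' Finset.univ x,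
      if_pos (Finset.mem_univ x)]

end four

section lift

variable {R L : Type} [CommRing R] [CommRing L] (θ : R →+* L) {G : Type} [Group G]

theorem lift_coef (X : MonoidAlgebra L G) (hX : ∀ g, ∃ r, θ r = X.coeff g) :
    ∃ Y : MonoidAlgebra R G, mapRingHom G θ Y = X := by
  classical
  choose c hc using hX
  refine ⟨∑ g ∈ X.coeff.support, single g (c g), ?_⟩
  apply coeff_injective
  ext g
  rw [mapR_coeff, coeff_sum, Finsupp.finsetSum_apply]
  simp only [coeff_single, Finsupp.single_apply]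
  rw [Finset.sum_ite_eq']
  split_ifs with h
  · exact hc g
  · have h1 : X.coeff g = 0 := by simpa using h
    rw [h1, map_zero]

theorem mapR_inj (hθ : Function.Injective θ) : Function.Injective (mapRingHom G θ) := by
  intro x y hxy
  apply coeff_injective
  ext g
  have h2 := congrArg (fun z => z.coeff g) hxy
  simp only [mapR_coeff] at h2
  exact hθ h2

theorem lift_K1 (hθ : Function.Injective θ) {n : ℕ}
    (A : (Matrix (Fin n) (Fin n) (MonoidAlgebra L G))ˣ)
    (h1 : ∀ i j g, ∃ r, θ r = (A.val i j).coeff g)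
    (h2 : ∀ i j g, ∃ r, θ r = ((A⁻¹).val i j).coeff g) :
    ∃ x : K1 (MonoidAlgebra R G), K1map (mapRingHom G θ) x = cl A := by
  choose Y hY using fun i j => lift_coef θ (A.val i j) (h1 i j)
  choose Z hZ using fun i j => lift_coef θ ((A⁻¹).val i j) (h2 i j)
  have eY : (Matrix.of Y).map (mapRingHom G θ) = A.val := by
    ext1 i j; exact hY i j
  have eZ : (Matrix.of Z).map (mapRingHom G θ) = (A⁻¹).val := by
    ext1 i j; exact hZ i j
  have hinj : Function.Injective fun M : Matrix (Fin n) (Fin n) (MonoidAlgebra R G) =>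
      M.map (mapRingHom G θ) := fun M M' h => by
    ext1 i j
    exact mapR_inj θ hθ (congrFun (congrFun h i) j)
  let U : (Matrix (Fin n) (Fin n) (MonoidAlgebra R G))ˣ :=
    { val := Matrix.of Y
      inv := Matrix.of Z
      val_inv := by
        apply hinj
        show (Matrix.of Y * Matrix.of Z).map _ = (1 : Matrix _ _ _).map _
        rw [Matrix.map_mul, eY, eZ, A.mul_inv, Matrix.map_one _ (map_zero _) (map_one _)]
      inv_val := by
        apply hinj
        show (Matrix.of Z * Matrix.of Y).map _ = (1 : Matrix _ _ _).map _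
        rw [Matrix.map_mul, eY, eZ, A.inv_mul, Matrix.map_one _ (map_zero _) (map_one _)] }
  refine ⟨cl U, ?_⟩
  rw [K1map_cl]
  congr 1
  apply Units.ext
  exact eY

end lift

end

end Pool.Agent.T9h42.SP
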